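import Pool.Agent.Q202.DT.Mix

/-!
# Few mixtures of planted games have large value
-/

set_option autoImplicit false

open Finset

namespace Pool.Agent.Q202.DT

open Pool.Agent.TH700.PA (mixp choose_mul_pow_le)

variable {d R n t : ℕ}

/-- The tuples with many agreements with some labeling. -/
theorem few_agree (hd : 1 ≤ d) (hR : 1 ≤ R) (hn : 1 ≤ n) (hRt : 2 * d * (2 * t) ^ 4 ≤ R ^ 2) :
    ∃ B : Finset (Fin t → Lab d R n), (∀ b, b ∉ B → ∀ l, (agree b l).card ≤ 4 * n) ∧
      B.card * 2 ^ n ≤ Fintype.card (Fin t → Lab d R n) := by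
  classical
  obtain ⟨Q, hQ⟩ : ∃ Q, Q = Fintype.card (Fin t → Lab d R n) := ⟨_, rfl⟩
  rw [← hQ]
  refine ⟨univ.biUnion (fun l : Lab d R n =>
    (powersetCard (4 * n) (univ : Finset (Fin t × (Fin n ⊕ Fin n)))).biUnion (fun S =>
      univ.filter (fun b : Fin t → Lab d R n => S ⊆ agree b l))), fun b hb l => ?_, ?_⟩
  · by_contra hcon
    rw [not_le] at hcon
    apply hb
    obtain ⟨S, hS, hSc⟩ := exists_subset_card_eq hcon.le
    rw [mem_biUnion]
    refine ⟨l, mem_univ _, ?_⟩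
    rw [mem_biUnion]
    exact ⟨S, mem_powersetCard.2 ⟨subset_univ _, hSc⟩, mem_filter.2 ⟨mem_univ _, hS⟩⟩
  · obtain ⟨C, hC⟩ : ∃ C, C = (powersetCard (4 * n)
      (univ : Finset (Fin t × (Fin n ⊕ Fin n)))).card := ⟨_, rfl⟩
    have hCt : C ≤ (2 * t) ^ (4 * n) := by
      rw [hC, card_powersetCard, card_univ, Fintype.card_prod, Fintype.card_sum,
        Fintype.card_fin, Fintype.card_fin]
      refine Nat.le_of_mul_le_mul_right (c := (4 * n) ^ (4 * n)) ?_ (Nat.pow_pos (by omega))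
      refine (choose_mul_pow_le _ _).trans (le_of_eq ?_)
      rw [← mul_pow]
      congr 1
      ring
    have h1 : (univ.biUnion (fun l : Lab d R n =>
        (powersetCard (4 * n) (univ : Finset (Fin t × (Fin n ⊕ Fin n)))).biUnion (fun S =>
          univ.filter (fun b : Fin t → Lab d R n => S ⊆ agree b l)))).card * R ^ (4 * n) ≤
        (d * R * R) ^ n * (C * Q) := by
      calc _ ≤ (∑ l : Lab d R n, ∑ S ∈ powersetCard (4 * n)
            (univ : Finset (Fin t × (Fin n ⊕ Fin n))),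
            (univ.filter (fun b : Fin t → Lab d R n => S ⊆ agree b l)).card) * R ^ (4 * n) :=
            Nat.mul_le_mul_right _ (card_biUnion_le.trans (sum_le_sum fun l _ => card_biUnion_le))
        _ = ∑ l : Lab d R n, ∑ S ∈ powersetCard (4 * n)
            (univ : Finset (Fin t × (Fin n ⊕ Fin n))),
            (univ.filter (fun b : Fin t → Lab d R n => S ⊆ agree b l)).card * R ^ (4 * n) := by
            rw [sum_mul]
            exact sum_congr rfl fun l _ => sum_mul _ _ _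
        _ ≤ ∑ _l : Lab d R n, ∑ _S ∈ powersetCard (4 * n)
            (univ : Finset (Fin t × (Fin n ⊕ Fin n))), Q := by
            refine sum_le_sum fun l _ => sum_le_sum fun S hS => ?_
            have h2 := card_agree hd l S
            rw [(mem_powersetCard.1 hS).2, ← hQ] at h2
            exact h2
        _ = _ := by
            rw [sum_const, sum_const, card_univ, card_lab, smul_eq_mul, smul_eq_mul, ← hC]
    have h2 : (d * R * R) ^ n * (2 * t) ^ (4 * n) * 2 ^ n ≤ R ^ (4 * n) := by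
      calc (d * R * R) ^ n * (2 * t) ^ (4 * n) * 2 ^ n =
          ((d * R * R) * (2 * t) ^ 4 * 2) ^ n := by
            rw [mul_pow (d * R * R * (2 * t) ^ 4), mul_pow (d * R * R), ← pow_mul]
        _ = ((2 * d * (2 * t) ^ 4) * R ^ 2) ^ n := by congr 1; ring
        _ ≤ (R ^ 2 * R ^ 2) ^ n := Nat.pow_le_pow_left (Nat.mul_le_mul_right _ hRt) _
        _ = _ := by rw [← pow_add, ← pow_mul]
    have hR4 : 0 < R ^ (4 * n) := Nat.pow_pos hR
    refine Nat.le_of_mul_le_mul_left (c := R ^ (4 * n)) ?_ hR4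
    obtain ⟨X, hX⟩ : ∃ X, X = (univ.biUnion (fun l : Lab d R n =>
        (powersetCard (4 * n) (univ : Finset (Fin t × (Fin n ⊕ Fin n)))).biUnion (fun S =>
          univ.filter (fun b : Fin t → Lab d R n => S ⊆ agree b l)))).card := ⟨_, rfl⟩
    rw [← hX] at h1 ⊢
    calc R ^ (4 * n) * (X * 2 ^ n) = (X * R ^ (4 * n)) * 2 ^ n := by ring
      _ ≤ ((d * R * R) ^ n * (C * Q)) * 2 ^ n := Nat.mul_le_mul_right _ h1
      _ ≤ ((d * R * R) ^ n * ((2 * t) ^ (4 * n) * Q)) * 2 ^ n :=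
          Nat.mul_le_mul_right _ (Nat.mul_le_mul_left _ (Nat.mul_le_mul_right _ hCt))
      _ = ((d * R * R) ^ n * (2 * t) ^ (4 * n) * 2 ^ n) * Q := by ring
      _ ≤ _ := Nat.mul_le_mul_right _ h2

variable (π : Fin n × Fin n → DMap d R) (E : Finset (Fin n × Fin n)) (p : {v // v ∈ E} → Fin t)

/-- The tuples whose mixtures have few edges. -/
theorem few_small (hd : 1 ≤ d) (hR : 1 ≤ R) (hn : 1 ≤ n) {κ : ℝ}
    (κ1 : κ ≤ (E.card : ℝ) / (4 * n * R)) (S : Finset (Fin t → Lab d R n))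
    (hS : ∀ b ∈ S, 4 * R * (present π E p univ b).card ≤ E.card) :
    (S.card : ℝ) ≤ Fintype.card (Fin t → Lab d R n) * 2 ^ (-κ) := by
  have hn0 : (0 : ℝ) < n := by exact_mod_cast hn
  have hR0 : (0 : ℝ) < R := by exact_mod_cast hR
  have h1 := present_low π E p univ hd hR hn ((E.card : ℝ) / (4 * R)) S (fun b hb => by
    rw [le_div_iff₀ (by positivity)]
    have h2 := hS b hb
    rw [mul_comm]
    exact_mod_cast h2)
  refine h1.trans (mul_le_mul_of_nonneg_left ?_ (by positivity))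
  have h2 : (univ.filter (fun v : {v // v ∈ E} => p v ∈ (univ : Finset (Fin t)))).card = E.card := by
    rw [filter_true_of_mem (fun _ _ => mem_univ _), card_univ, Fintype.card_coe]
  rw [h2, ← Real.rpow_add (by norm_num)]
  refine Real.rpow_le_rpow_of_exponent_le (by norm_num) ?_
  have h3 : -((E.card : ℝ) / (n * R) / 2) + (E.card : ℝ) / (4 * R) / n =
      -((E.card : ℝ) / (4 * n * R)) := by
    field_simp
    ring
  rw [h3]
  linarith

/-- The tuples for which one part of the mixture has many edges. -/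
theorem few_large (hd : 1 ≤ d) (hR : 1 ≤ R) (hn : 1 ≤ n) {y : ℕ} {κ : ℝ}
    (κ2 : κ ≤ 4 * (y : ℝ) ^ 2 / (n * R)) (j : Fin t)
    (hp : (univ.filter (fun v : {v // v ∈ E} => p v = j)).card ≤ 2 * y ^ 2)
    (S : Finset (Fin t → Lab d R n))
    (hS : ∀ b ∈ S, 8 * y ^ 2 ≤ R * (present π E p {j} b).card) :
    (S.card : ℝ) ≤ Fintype.card (Fin t → Lab d R n) * 2 ^ (-κ) := by
  have hn0 : (0 : ℝ) < n := by exact_mod_cast hn
  have hR0 : (0 : ℝ) < R := by exact_mod_cast hR
  have h1 := present_up π E p {j} hd hR hn (8 * (y : ℝ) ^ 2 / R) S (fun b hb => by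
    rw [div_le_iff₀ hR0]
    have h2 := hS b hb
    rw [mul_comm ((present π E p {j} b).card : ℝ)]
    exact_mod_cast h2)
  refine h1.trans (mul_le_mul_of_nonneg_left ?_ (by positivity))
  have h2 : (((univ.filter (fun v : {v // v ∈ E} => p v ∈ ({j} : Finset (Fin t)))).card : ℕ) : ℝ) ≤
      2 * y ^ 2 := by
    have h3 : univ.filter (fun v : {v // v ∈ E} => p v ∈ ({j} : Finset (Fin t))) =
        univ.filter (fun v : {v // v ∈ E} => p v = j) := by
      refine filter_congr fun v _ => ?_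
      rw [mem_singleton]
    rw [h3]
    exact_mod_cast hp
  rw [← Real.rpow_add (by norm_num)]
  refine Real.rpow_le_rpow_of_exponent_le (by norm_num) ?_
  have h3 : 2 * (((univ.filter (fun v : {v // v ∈ E} =>
      p v ∈ ({j} : Finset (Fin t)))).card : ℝ) / (n * R)) ≤ 4 * (y : ℝ) ^ 2 / (n * R) := by
    rw [← mul_div_assoc]
    refine div_le_div_of_nonneg_right ?_ (by positivity)
    linarith
  have h4 : 4 * (y : ℝ) ^ 2 / (n * R) + -(8 * (y : ℝ) ^ 2 / R / n) =
      -(4 * (y : ℝ) ^ 2 / (n * R)) := by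
    field_simp
    ring
  linarith

/-- Few mixtures have large value. -/
theorem few_bad {g h y s₀ s₁ : ℕ} {κ : ℝ} (hd : 1 ≤ d) (hh : 1 ≤ h) (hR : 1 ≤ R)
    (hn : 1 ≤ n) (hπ : Spread π s₀ s₁) (hE : n * n ≤ h * E.card)
    (hp : ∀ j, (univ.filter (fun v : {v // v ∈ E} => p v = j)).card ≤ 2 * y ^ 2)
    (hy : 256 * g * h * y ≤ n) (c2 : 16 * g * h * t * R * (s₀ + 1) ≤ n * n)
    (c3 : 8 * g * h * t * R * s₁ ≤ n * n) (hRt : 2 * d * (2 * t) ^ 4 ≤ R ^ 2)
    (κ1 : κ ≤ (E.card : ℝ) / (4 * n * R)) (κ2 : κ ≤ 4 * (y : ℝ) ^ 2 / (n * R)) (κ3 : κ ≤ n) :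
    ∃ B : Finset (Fin t → Lab d R n), (∀ b, b ∉ B → Nonvoid (mixed π E p b) ∧
      ValueLe π g (mixed π E p b)) ∧
      (B.card : ℝ) ≤ Fintype.card (Fin t → Lab d R n) * ((t + 2) * 2 ^ (-κ)) := by
  classical
  obtain ⟨B₃, hB₃, hB₃c⟩ := few_agree (n := n) hd hR hn hRt
  obtain ⟨B₁, hB₁⟩ : ∃ B₁ : Finset (Fin t → Lab d R n), B₁ = univ.filter (fun b =>
    4 * R * (present π E p univ b).card ≤ E.card) := ⟨_, rfl⟩
  obtain ⟨B₂, hB₂⟩ : ∃ B₂ : Fin t → Finset (Fin t → Lab d R n), B₂ = fun j => univ.filter (fun b =>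
    8 * y ^ 2 ≤ R * (present π E p {j} b).card) := ⟨_, rfl⟩
  refine ⟨B₁ ∪ ((univ : Finset (Fin t)).biUnion B₂ ∪ B₃), fun b hb => ?_, ?_⟩
  · rw [mem_union, not_or, mem_union, not_or] at hb
    obtain ⟨hb1, hb2, hb3⟩ := hb
    have h1 : E.card < 4 * R * (present π E p univ b).card := by
      rw [hB₁, mem_filter, not_and, not_le] at hb1
      exact hb1 (mem_univ _)
    have h2 : ∀ j, R * (present π E p {j} b).card ≤ 8 * y ^ 2 := by
      intro j
      by_contra hcon
      rw [not_le] at hcon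
      apply hb2
      rw [mem_biUnion]
      refine ⟨j, mem_univ _, ?_⟩
      rw [hB₂]
      exact mem_filter.2 ⟨mem_univ _, hcon.le⟩
    have hpos : 0 < (present π E p univ b).card := by
      rcases Nat.eq_zero_or_pos (present π E p univ b).card with h0 | h0
      · rw [h0, mul_zero] at h1
        omega
      · exact h0
    refine ⟨?_, fun M L => ?_⟩
    · obtain ⟨v, hv⟩ := card_pos.1 hpos
      exact ⟨v.1, (mixed_iff π E p b v.1).2 ⟨v.2, hv⟩⟩
    · have h3 := sat_bound π E p hπ b h2 (M, L) (hB₃ b hb3 _)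
      rw [card_mixed']
      obtain ⟨z, hz⟩ : ∃ z, z = Nat.card {e // mixed π E p b e = true ∧ Satd π M L e} := ⟨_, rfl⟩
      have h4 : R * z ≤ R * (t * s₁) + (R * (t * (s₀ + 1)) + 16 * (y * n)) := by
        rw [hz]
        exact h3
      rw [← hz]
      have h5 : h * (4 * g * R * z) ≤ h * E.card := by
        refine le_trans ?_ hE
        have e1 : h * (4 * g * R * z) = 4 * g * h * (R * z) := by ring
        have e2 : 4 * g * h * (R * z) ≤
            4 * g * h * (R * (t * s₁) + (R * (t * (s₀ + 1)) + 16 * (y * n))) :=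
          Nat.mul_le_mul_left _ h4
        have e3 : 4 * g * h * (R * (t * s₁) + (R * (t * (s₀ + 1)) + 16 * (y * n))) =
          4 * g * h * t * R * s₁ + 4 * g * h * t * R * (s₀ + 1) + 64 * g * h * y * n := by ring
        have e4 : 256 * g * h * y * n ≤ n * n := Nat.mul_le_mul_right _ hy
        have e5 : 16 * g * h * t * R * (s₀ + 1) = 4 * (4 * g * h * t * R * (s₀ + 1)) := by ring
        have e6 : 8 * g * h * t * R * s₁ = 2 * (4 * g * h * t * R * s₁) := by ring
        have e7 : 256 * g * h * y * n = 4 * (64 * g * h * y * n) := by ring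
        omega
      have h6 : 4 * g * R * z ≤ E.card := Nat.le_of_mul_le_mul_left h5 hh
      have h7 : 4 * R * (g * z) < 4 * R * (present π E p univ b).card := by
        have : 4 * R * (g * z) = 4 * g * R * z := by ring
        omega
      exact (Nat.lt_of_mul_lt_mul_left h7).le
  · obtain ⟨Q, hQ⟩ : ∃ Q : ℝ, Q = Fintype.card (Fin t → Lab d R n) := ⟨_, rfl⟩
    have hQ0 : 0 ≤ Q := by rw [hQ]; positivity
    have g1 : (B₁.card : ℝ) ≤ Q * 2 ^ (-κ) := by
      rw [hQ]
      refine few_small π E p hd hR hn κ1 B₁ fun b hb => ?_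
      rw [hB₁] at hb
      exact (mem_filter.1 hb).2
    have g2 : ∀ j, ((B₂ j).card : ℝ) ≤ Q * 2 ^ (-κ) := by
      intro j
      rw [hQ]
      refine few_large π E p hd hR hn κ2 j (hp j) (B₂ j) fun b hb => ?_
      rw [hB₂] at hb
      exact (mem_filter.1 hb).2
    have g3 : (B₃.card : ℝ) ≤ Q * 2 ^ (-κ) := by
      have e1 : (B₃.card : ℝ) * 2 ^ n ≤ Q := by
        rw [hQ]
        exact_mod_cast hB₃c
      have e2 : (B₃.card : ℝ) ≤ Q * 2 ^ (-(n : ℝ)) := by
        rw [Real.rpow_neg (by norm_num), Real.rpow_natCast, ← div_eq_mul_inv,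
          le_div_iff₀ (by positivity)]
        exact e1
      refine e2.trans (mul_le_mul_of_nonneg_left ?_ hQ0)
      exact Real.rpow_le_rpow_of_exponent_le (by norm_num) (by linarith)
    have g4 : (((univ : Finset (Fin t)).biUnion B₂).card : ℝ) ≤ t * (Q * 2 ^ (-κ)) := by
      calc (((univ : Finset (Fin t)).biUnion B₂).card : ℝ) ≤
          ((∑ j, (B₂ j).card : ℕ) : ℝ) := by exact_mod_cast card_biUnion_le
        _ = ∑ j, ((B₂ j).card : ℝ) := by push_cast; rfl
        _ ≤ ∑ _j : Fin t, Q * 2 ^ (-κ) := sum_le_sum fun j _ => g2 j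
        _ = _ := by rw [sum_const, card_univ, Fintype.card_fin, nsmul_eq_mul]
    rw [← hQ]
    have g5 : ((B₁ ∪ ((univ : Finset (Fin t)).biUnion B₂ ∪ B₃)).card : ℝ) ≤
        B₁.card + (((univ : Finset (Fin t)).biUnion B₂).card + B₃.card) := by
      have e1 := card_union_le B₁ ((univ : Finset (Fin t)).biUnion B₂ ∪ B₃)
      have e2 := card_union_le ((univ : Finset (Fin t)).biUnion B₂) B₃
      have e3 : (B₁ ∪ ((univ : Finset (Fin t)).biUnion B₂ ∪ B₃)).card ≤
        B₁.card + (((univ : Finset (Fin t)).biUnion B₂).card + B₃.card) := by omega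
      exact_mod_cast e3
    calc ((B₁ ∪ ((univ : Finset (Fin t)).biUnion B₂ ∪ B₃)).card : ℝ) ≤ _ := g5
      _ ≤ Q * 2 ^ (-κ) + (t * (Q * 2 ^ (-κ)) + Q * 2 ^ (-κ)) :=
          add_le_add g1 (add_le_add g4 g3)
      _ = _ := by ring

end Pool.Agent.Q202.DT
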