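import Mathlib.Analysis.SpecialFunctions.Pow.Real
import Mathlib.Analysis.Convex.SpecificFunctions.Basic
import Mathlib.Analysis.Complex.ExponentialBounds
import Mathlib.Algebra.BigOperators.Field
import Mathlib.Algebra.BigOperators.Ring.Finset
import Mathlib.Data.Fintype.Pi
import Mathlib.Data.Fintype.BigOperators

/-!
# Sums of independent numbers between `0` and `1`
-/

set_option autoImplicit false

open Finset

namespace Pool.Agent.Q202.DT

variable {ι β : Type} [Fintype ι] [DecidableEq ι] [Fintype β]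

/-- The moment generating function. -/
theorem mgf (f : ι → β → ℝ) (z : ℝ) (hz : 0 < z) (g : ι → ℝ)
    (hg : ∀ i, ∑ b, z ^ f i b ≤ g i) :
    ∑ B : ι → β, z ^ (∑ i, f i (B i)) ≤ ∏ i, g i := by
  have h1 : ∀ B : ι → β, z ^ (∑ i, f i (B i)) = ∏ i, z ^ f i (B i) := fun B =>
    Real.rpow_sum_of_pos hz _ _
  rw [sum_congr rfl fun B _ => h1 B]
  have h2 : ∏ i : ι, ∑ b : β, z ^ f i b = ∑ B : ι → β, ∏ i, z ^ f i (B i) := by
    rw [prod_univ_sum, Fintype.piFinset_univ]
  rw [← h2]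
  exact prod_le_prod (fun i _ => sum_nonneg fun b _ => Real.rpow_nonneg hz.le _) fun i _ => hg i

/-- The sum is rarely large. -/
theorem tail_up [Nonempty β] (f : ι → β → ℝ) (h0 : ∀ i b, 0 ≤ f i b) (h1 : ∀ i b, f i b ≤ 1)
    (m : ι → ℝ) (hm : ∀ i, ∑ b, f i b ≤ m i * Fintype.card β) (s : ℝ)
    (S : Finset (ι → β)) (hS : ∀ B ∈ S, s ≤ ∑ i, f i (B i)) :
    (S.card : ℝ) ≤ Fintype.card (ι → β) * (2 ^ (2 * (∑ i, m i)) * 2 ^ (-s)) := by
  have hc : (0 : ℝ) < Fintype.card β := by exact_mod_cast Fintype.card_pos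
  have hm0 : ∀ i, 0 ≤ m i := by
    intro i
    have h2 : 0 ≤ m i * Fintype.card β := (sum_nonneg fun b _ => h0 i b).trans (hm i)
    by_contra hcon
    rw [not_le] at hcon
    nlinarith
  have h2 := mgf f 2 (by norm_num) (fun i => Fintype.card β * 2 ^ (2 * m i)) (fun i => by
    have h3 : ∀ b, (2 : ℝ) ^ f i b ≤ 1 + f i b := by
      intro b
      have := rpow_one_add_le_one_add_mul_self (s := 1) (by norm_num) (h0 i b) (h1 i b)
      rw [mul_one] at this
      norm_num at this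
      linarith
    calc ∑ b, (2 : ℝ) ^ f i b ≤ ∑ b, (1 + f i b) := sum_le_sum fun b _ => h3 b
      _ = Fintype.card β + ∑ b, f i b := by
        rw [sum_add_distrib, sum_const, card_univ, nsmul_eq_mul, mul_one]
      _ ≤ Fintype.card β + m i * Fintype.card β := by linarith [hm i]
      _ = Fintype.card β * (1 + m i) := by ring
      _ ≤ _ := by
        refine mul_le_mul_of_nonneg_left ?_ hc.le
        have h4 : 1 + m i ≤ Real.exp (m i) := by linarith [Real.add_one_le_exp (m i)]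
        refine h4.trans ?_
        rw [Real.rpow_def_of_pos (by norm_num)]
        refine Real.exp_le_exp.2 ?_
        have h5 := Real.log_two_gt_d9
        nlinarith [hm0 i])
  rw [prod_mul_distrib, prod_const, card_univ, ← Real.rpow_sum_of_pos (by norm_num),
    ← mul_sum] at h2
  have h3 : (S.card : ℝ) * 2 ^ s ≤ ∑ B : ι → β, (2 : ℝ) ^ (∑ i, f i (B i)) := by
    calc (S.card : ℝ) * 2 ^ s = ∑ _B ∈ S, (2 : ℝ) ^ s := by rw [sum_const, nsmul_eq_mul]
      _ ≤ ∑ B ∈ S, (2 : ℝ) ^ (∑ i, f i (B i)) := sum_le_sum fun B hB =>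
          Real.rpow_le_rpow_of_exponent_le (by norm_num) (hS B hB)
      _ ≤ _ := sum_le_sum_of_subset_of_nonneg (subset_univ _) fun B _ _ =>
          Real.rpow_nonneg (by norm_num) _
  have h4 : (0 : ℝ) < 2 ^ s := Real.rpow_pos_of_pos (by norm_num) _
  rw [Real.rpow_neg (by norm_num), Fintype.card_fun]
  push_cast
  rw [← mul_assoc, ← div_eq_mul_inv, le_div_iff₀ h4]
  exact h3.trans h2

/-- The sum is rarely small. -/
theorem tail_low [Nonempty β] (f : ι → β → ℝ) (h0 : ∀ i b, 0 ≤ f i b) (h1 : ∀ i b, f i b ≤ 1)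
    (m : ι → ℝ) (hm : ∀ i, m i * Fintype.card β ≤ ∑ b, f i b) (hm0 : ∀ i, 0 ≤ m i) (s : ℝ)
    (S : Finset (ι → β)) (hS : ∀ B ∈ S, ∑ i, f i (B i) ≤ s) :
    (S.card : ℝ) ≤ Fintype.card (ι → β) * (2 ^ (-((∑ i, m i) / 2)) * 2 ^ s) := by
  have hc : (0 : ℝ) < Fintype.card β := by exact_mod_cast Fintype.card_pos
  have h2 := mgf f (1 / 2) (by norm_num) (fun i => Fintype.card β * 2 ^ (-(m i / 2)))
    (fun i => by
    have h3 : ∀ b, (1 / 2 : ℝ) ^ f i b ≤ 1 - f i b / 2 := by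
      intro b
      have := rpow_one_add_le_one_add_mul_self (s := -(1 / 2)) (by norm_num) (h0 i b)
        (h1 i b)
      norm_num at this ⊢
      linarith
    calc ∑ b, (1 / 2 : ℝ) ^ f i b ≤ ∑ b, (1 - f i b / 2) := sum_le_sum fun b _ => h3 b
      _ = Fintype.card β - (∑ b, f i b) / 2 := by
        rw [sum_sub_distrib, sum_const, card_univ, nsmul_eq_mul, mul_one, sum_div]
      _ ≤ Fintype.card β - (m i * Fintype.card β) / 2 := by linarith [hm i]
      _ = Fintype.card β * (1 - m i / 2) := by ring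
      _ ≤ _ := by
        refine mul_le_mul_of_nonneg_left ?_ hc.le
        have h4 : 1 - m i / 2 ≤ Real.exp (-(m i / 2)) := by
          linarith [Real.add_one_le_exp (-(m i / 2))]
        refine h4.trans ?_
        rw [Real.rpow_def_of_pos (by norm_num)]
        refine Real.exp_le_exp.2 ?_
        have h5 := Real.log_two_lt_d9
        nlinarith [hm0 i])
  rw [prod_mul_distrib, prod_const, card_univ, ← Real.rpow_sum_of_pos (by norm_num)] at h2
  have h3 : (S.card : ℝ) * (1 / 2) ^ s ≤ ∑ B : ι → β, (1 / 2 : ℝ) ^ (∑ i, f i (B i)) := by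
    calc (S.card : ℝ) * (1 / 2) ^ s = ∑ _B ∈ S, (1 / 2 : ℝ) ^ s := by
          rw [sum_const, nsmul_eq_mul]
      _ ≤ ∑ B ∈ S, (1 / 2 : ℝ) ^ (∑ i, f i (B i)) := sum_le_sum fun B hB =>
          Real.rpow_le_rpow_of_exponent_ge (by norm_num) (by norm_num) (hS B hB)
      _ ≤ _ := sum_le_sum_of_subset_of_nonneg (subset_univ _) fun B _ _ =>
          Real.rpow_nonneg (by norm_num) _
  have h4 : ((1 : ℝ) / 2) ^ s = (2 ^ s)⁻¹ := by
    rw [one_div, Real.inv_rpow (by norm_num)]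
  have h5 : (0 : ℝ) < 2 ^ s := Real.rpow_pos_of_pos (by norm_num) _
  have h6 : ∑ i, -(m i / 2) = -((∑ i, m i) / 2) := by
    rw [sum_neg_distrib, sum_div]
  rw [h6] at h2
  rw [h4, ← div_eq_mul_inv, div_le_iff₀ h5] at h3
  rw [Fintype.card_fun]
  push_cast
  calc (S.card : ℝ) ≤ (∑ B : ι → β, (1 / 2 : ℝ) ^ (∑ i, f i (B i))) * 2 ^ s := h3
    _ ≤ _ := by
      rw [← mul_assoc]
      exact mul_le_mul_of_nonneg_right h2 h5.le

end Pool.Agent.Q202.DT
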