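import Pool.Agent.Q202.DT.Template
import Pool.Agent.Q202.DT.Tail

/-!
# The number of present constraints of a mixture of planted games
-/

set_option autoImplicit false

open Finset

namespace Pool.Agent.Q202.DT

variable {d R n t : ℕ}

open Classical in
theorem fib_bound (S : Finset (Fin t → Lab d R n)) (c : ℝ)
    (h : ∀ A : Fin t → Fin n → Fin R,
      ((univ.filter (fun B : Fin t × Fin n → Fin (d * R) =>
        (fun j => (A j, fun w => B (j, w))) ∈ S)).card : ℝ) ≤
          Fintype.card (Fin t × Fin n → Fin (d * R)) * c) :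
    (S.card : ℝ) ≤ Fintype.card (Fin t → Lab d R n) * c := by
  have h1 : S.card = ∑ A : Fin t → Fin n → Fin R,
      (S.filter (fun b => (fun j => (b j).1) = A)).card :=
    card_eq_sum_card_fiberwise (fun _ _ => mem_univ _)
  have h2 : ∀ A : Fin t → Fin n → Fin R, (S.filter (fun b => (fun j => (b j).1) = A)).card ≤
      (univ.filter (fun B : Fin t × Fin n → Fin (d * R) =>
        (fun j => (A j, fun w => B (j, w))) ∈ S)).card := by
    intro A
    refine card_le_card_of_injOn (fun b q => (b q.1).2 q.2) (fun b hb => ?_)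
      (fun b hb b' hb' he => ?_)
    · rw [mem_coe, mem_filter] at hb
      rw [mem_coe, mem_filter]
      refine ⟨mem_univ _, ?_⟩
      have h3 : (fun j => (A j, fun w => (b j).2 w)) = b := by
        funext j
        rw [← hb.2]
      show (fun j => (A j, fun w => (b j).2 w)) ∈ S
      rw [h3]
      exact hb.1
    · rw [mem_coe, mem_filter] at hb hb'
      funext j
      have h3 : (b j).1 = (b' j).1 := (congrFun hb.2 j).trans (congrFun hb'.2 j).symm
      refine Prod.ext h3 (funext fun w => ?_)
      exact congrFun he (j, w)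
  have h3 : (S.card : ℝ) ≤ ∑ _A : Fin t → Fin n → Fin R,
      Fintype.card (Fin t × Fin n → Fin (d * R)) * c := by
    rw [h1]
    push_cast
    refine sum_le_sum fun A _ => le_trans ?_ (h A)
    exact_mod_cast h2 A
  refine h3.trans (le_of_eq ?_)
  rw [sum_const, card_univ, nsmul_eq_mul, ← mul_assoc]
  congr 1
  have h4 : Fintype.card (Fin t → Fin n → Fin R) * Fintype.card (Fin t × Fin n → Fin (d * R)) =
      Fintype.card (Fin t → Lab d R n) := by
    rw [Fintype.card_fun, Fintype.card_fun, Fintype.card_fun, Fintype.card_fun, Fintype.card_prod,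
      Fintype.card_prod, Fintype.card_fun, Fintype.card_fun, Fintype.card_fin, Fintype.card_fin,
      Fintype.card_fin, Fintype.card_fin, mul_pow (R ^ n), ← pow_mul, ← pow_mul, mul_comm t n]
  exact_mod_cast h4

/-- The edge `e` is present if the labeling satisfies its constraint. -/
def planted (π : Fin n × Fin n → DMap d R) (l : Lab d R n) : Fin n × Fin n → Bool :=
  fun e => decide ((π e).map (l.2 e.2) = l.1 e.1)

variable (π : Fin n × Fin n → DMap d R) (E : Finset (Fin n × Fin n)) (p : {v // v ∈ E} → Fin t)
  (J : Finset (Fin t))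

/-- The present edges of the parts in `J`. -/
def present (b : Fin t → Lab d R n) : Finset {v // v ∈ E} :=
  univ.filter (fun v => p v ∈ J ∧ planted π (b (p v)) v.1 = true)

/-- The edges of one part at one right vertex that are present for a right label. -/
def cell (A : Fin t → Fin n → Fin R) (q : Fin t × Fin n) (β : Fin (d * R)) :
    Finset {v // v ∈ E} :=
  univ.filter (fun v => (p v ∈ J ∧ (p v, v.1.2) = q) ∧ (π v.1).map β = A q.1 v.1.1)

/-- The edges of one part at one right vertex. -/
def star (q : Fin t × Fin n) : Finset {v // v ∈ E} :=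
  univ.filter (fun v => p v ∈ J ∧ (p v, v.1.2) = q)

theorem card_cell_le (A : Fin t → Fin n → Fin R) (q : Fin t × Fin n) (β : Fin (d * R)) :
    (cell π E p J A q β).card ≤ n := by
  classical
  have h1 : (cell π E p J A q β).card ≤ (univ : Finset (Fin n)).card := by
    refine card_le_card_of_injOn (fun v => v.1.1) (fun _ _ => mem_univ _) (fun v hv v' hv' h => ?_)
    rw [mem_coe] at hv hv'
    unfold cell at hv hv'
    have e1 := (mem_filter.1 hv).2.1.2
    have e2 := (mem_filter.1 hv').2.1.2
    have e3 : v.1.2 = v'.1.2 := (congrArg Prod.snd e1).trans (congrArg Prod.snd e2).symm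
    exact Subtype.ext (Prod.ext h e3)
  rwa [card_univ, Fintype.card_fin] at h1

theorem sum_cell (A : Fin t → Fin n → Fin R) (q : Fin t × Fin n) :
    ∑ β, (cell π E p J A q β).card = d * (star E p J q).card := by
  classical
  have h1 : ∀ β, (cell π E p J A q β).card =
      ∑ v ∈ star E p J q, if (π v.1).map β = A q.1 v.1.1 then 1 else 0 := by
    intro β
    unfold cell star
    rw [← filter_filter, card_filter]
  have h2 : d * (star E p J q).card = ∑ _v ∈ star E p J q, d := by
    rw [sum_const, smul_eq_mul, mul_comm]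
  rw [sum_congr rfl fun β _ => h1 β, sum_comm, h2]
  refine sum_congr rfl fun v _ => ?_
  rw [← card_filter]
  exact (π v.1).fiber _

theorem card_present (b : Fin t → Lab d R n) : (present π E p J b).card =
    ∑ q : Fin t × Fin n, (cell π E p J (fun j => (b j).1) q ((b q.1).2 q.2)).card := by
  classical
  have h1 : (present π E p J b).card = ∑ q : Fin t × Fin n,
      ((present π E p J b).filter (fun v => (p v, v.1.2) = q)).card :=
    card_eq_sum_card_fiberwise (fun _ _ => mem_univ _)
  rw [h1]
  refine sum_congr rfl fun q _ => ?_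
  congr 1
  ext v
  unfold present cell planted
  rw [mem_filter, mem_filter, mem_filter, decide_eq_true_eq]
  constructor
  · rintro ⟨⟨-, h2, h3⟩, h4⟩
    refine ⟨mem_univ _, ⟨h2, h4⟩, ?_⟩
    rw [← h4]
    exact h3
  · rintro ⟨-, ⟨h2, h4⟩, h3⟩
    refine ⟨⟨mem_univ _, h2, ?_⟩, h4⟩
    rw [← h4] at h3
    exact h3

theorem sum_star : ∑ q : Fin t × Fin n, (star E p J q).card =
    (univ.filter (fun v : {v // v ∈ E} => p v ∈ J)).card := by
  classical
  have h1 : (univ.filter (fun v : {v // v ∈ E} => p v ∈ J)).card = ∑ q : Fin t × Fin n,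
      ((univ.filter (fun v : {v // v ∈ E} => p v ∈ J)).filter (fun v => (p v, v.1.2) = q)).card :=
    card_eq_sum_card_fiberwise (fun _ _ => mem_univ _)
  rw [h1]
  refine sum_congr rfl fun q _ => ?_
  unfold star
  rw [filter_filter]

/-- The number of present constraints is rarely large. -/
theorem present_up (hd : 1 ≤ d) (hR : 1 ≤ R) (hn : 1 ≤ n) (s : ℝ)
    (S : Finset (Fin t → Lab d R n)) (hS : ∀ b ∈ S, s ≤ (present π E p J b).card) :
    (S.card : ℝ) ≤ Fintype.card (Fin t → Lab d R n) *
      (2 ^ (2 * (((univ.filter (fun v : {v // v ∈ E} => p v ∈ J)).card : ℝ) / (n * R))) *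
        2 ^ (-(s / n))) := by
  classical
  have : Nonempty (Fin (d * R)) := ⟨⟨0, Nat.mul_pos hd hR⟩⟩
  have hn0 : (0 : ℝ) < n := by exact_mod_cast hn
  have hR0 : (0 : ℝ) < R := by exact_mod_cast hR
  refine fib_bound S _ fun A => ?_
  have h1 := tail_up (fun (q : Fin t × Fin n) β => ((cell π E p J A q β).card : ℝ) / n)
    (fun q β => by positivity) (fun q β => by
      rw [div_le_one hn0]
      exact_mod_cast card_cell_le π E p J A q β)
    (fun q => ((star E p J q).card : ℝ) / (n * R)) (fun q => by
      rw [← sum_div]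
      have h2 := sum_cell π E p J A q
      have h3 : ∑ β, ((cell π E p J A q β).card : ℝ) = d * (star E p J q).card := by
        exact_mod_cast h2
      rw [h3, Fintype.card_fin]
      push_cast
      refine le_of_eq ?_
      field_simp) (s / n)
    (univ.filter (fun B : Fin t × Fin n → Fin (d * R) =>
        (fun j => (A j, fun w => B (j, w))) ∈ S)) (fun B hB => by
      have h2 := hS _ (mem_filter.1 hB).2
      rw [card_present] at h2
      push_cast at h2
      rw [← sum_div]
      exact div_le_div_of_nonneg_right h2 hn0.le)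
  have h2 : ∑ q : Fin t × Fin n, ((star E p J q).card : ℝ) / (n * R) =
      ((univ.filter (fun v : {v // v ∈ E} => p v ∈ J)).card : ℝ) / (n * R) := by
    rw [← sum_div, ← sum_star E p J]
    push_cast
    rfl
  rw [h2] at h1
  exact h1

/-- The number of present constraints is rarely small. -/
theorem present_low (hd : 1 ≤ d) (hR : 1 ≤ R) (hn : 1 ≤ n) (s : ℝ)
    (S : Finset (Fin t → Lab d R n)) (hS : ∀ b ∈ S, (present π E p J b).card ≤ s) :
    (S.card : ℝ) ≤ Fintype.card (Fin t → Lab d R n) *
      (2 ^ (-((((univ.filter (fun v : {v // v ∈ E} => p v ∈ J)).card : ℝ) / (n * R)) / 2)) *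
        2 ^ (s / n)) := by
  classical
  have : Nonempty (Fin (d * R)) := ⟨⟨0, Nat.mul_pos hd hR⟩⟩
  have hn0 : (0 : ℝ) < n := by exact_mod_cast hn
  have hR0 : (0 : ℝ) < R := by exact_mod_cast hR
  refine fib_bound S _ fun A => ?_
  have h1 := tail_low (fun (q : Fin t × Fin n) β => ((cell π E p J A q β).card : ℝ) / n)
    (fun q β => by positivity) (fun q β => by
      rw [div_le_one hn0]
      exact_mod_cast card_cell_le π E p J A q β)
    (fun q => ((star E p J q).card : ℝ) / (n * R)) (fun q => by
      rw [← sum_div]
      have h2 := sum_cell π E p J A q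
      have h3 : ∑ β, ((cell π E p J A q β).card : ℝ) = d * (star E p J q).card := by
        exact_mod_cast h2
      rw [h3, Fintype.card_fin]
      push_cast
      refine le_of_eq ?_
      field_simp) (fun q => by positivity) (s / n)
    (univ.filter (fun B : Fin t × Fin n → Fin (d * R) =>
        (fun j => (A j, fun w => B (j, w))) ∈ S)) (fun B hB => by
      have h2 := hS _ (mem_filter.1 hB).2
      rw [card_present] at h2
      push_cast at h2
      rw [← sum_div]
      exact div_le_div_of_nonneg_right h2 hn0.le)
  have h2 : ∑ q : Fin t × Fin n, ((star E p J q).card : ℝ) / (n * R) =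
      ((univ.filter (fun v : {v // v ∈ E} => p v ∈ J)).card : ℝ) / (n * R) := by
    rw [← sum_div, ← sum_star E p J]
    push_cast
    rfl
  rw [h2] at h1
  exact h1

open Classical in
/-- The agreements of the tuple `b` with the labeling `l`. -/
noncomputable def agree (b : Fin t → Lab d R n) (l : Lab d R n) :
    Finset (Fin t × (Fin n ⊕ Fin n)) :=
  univ.filter (fun s => Sum.elim (fun v => (b s.1).1 v = l.1 v) (fun w => (b s.1).2 w = l.2 w) s.2)

open Classical in
/-- The tuples with given agreements. -/
theorem card_agree (hd : 1 ≤ d) (l : Lab d R n) (S : Finset (Fin t × (Fin n ⊕ Fin n))) :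
    (univ.filter (fun b : Fin t → Lab d R n => S ⊆ agree b l)).card * R ^ S.card ≤
      Fintype.card (Fin t → Lab d R n) := by
  have h1 : univ.filter (fun b : Fin t → Lab d R n => S ⊆ agree b l) ⊆
      Fintype.piFinset (fun j => (Fintype.piFinset (fun v =>
        if (j, Sum.inl v) ∈ S then ({l.1 v} : Finset (Fin R)) else univ)) ×ˢ
          (Fintype.piFinset (fun w =>
        if (j, Sum.inr w) ∈ S then ({l.2 w} : Finset (Fin (d * R))) else univ))) := by
    intro b hb
    have hb' := (mem_filter.1 hb).2
    rw [Fintype.mem_piFinset]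
    intro j
    rw [mem_product, Fintype.mem_piFinset, Fintype.mem_piFinset]
    refine ⟨fun v => ?_, fun w => ?_⟩
    · by_cases hv : (j, Sum.inl v) ∈ S
      · rw [if_pos hv, mem_singleton]
        exact (mem_filter.1 (hb' hv)).2
      · rw [if_neg hv]
        exact mem_univ _
    · by_cases hw : (j, Sum.inr w) ∈ S
      · rw [if_pos hw, mem_singleton]
        exact (mem_filter.1 (hb' hw)).2
      · rw [if_neg hw]
        exact mem_univ _
  refine (Nat.mul_le_mul_right _ (card_le_card h1)).trans ?_
  have h0 : R ^ S.card = ∏ j : Fin t, ((∏ v : Fin n, if (j, Sum.inl v) ∈ S then R else 1) *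
      ∏ w : Fin n, if (j, Sum.inr w) ∈ S then R else 1) := by
    have h2 : R ^ S.card = ∏ s : Fin t × (Fin n ⊕ Fin n), (if s ∈ S then R else 1) := by
      rw [prod_ite, prod_const_one, mul_one, prod_const]
      congr 2
      ext i
      simp
    rw [h2, Fintype.prod_prod_type]
    refine prod_congr rfl fun j _ => ?_
    rw [Fintype.prod_sum_type]
  rw [h0, Fintype.card_piFinset, ← prod_mul_distrib, Fintype.card_fun, ← card_univ, ← card_univ,
    ← prod_const]
  refine prod_le_prod' fun j _ => ?_
  rw [card_product, Fintype.card_piFinset, Fintype.card_piFinset, mul_mul_mul_comm,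
    ← prod_mul_distrib, ← prod_mul_distrib, card_univ, Fintype.card_prod, Fintype.card_fun,
    Fintype.card_fun]
  refine Nat.mul_le_mul ?_ ?_
  · rw [← card_univ (α := Fin n), ← prod_const]
    refine prod_le_prod' fun v _ => ?_
    by_cases hv : (j, Sum.inl v) ∈ S
    · rw [if_pos hv, if_pos hv, card_singleton, one_mul, Fintype.card_fin]
    · rw [if_neg hv, if_neg hv, mul_one, card_univ]
  · rw [← card_univ (α := Fin n), ← prod_const]
    refine prod_le_prod' fun w _ => ?_
    by_cases hw : (j, Sum.inr w) ∈ S
    · rw [if_pos hw, if_pos hw, card_singleton, one_mul, Fintype.card_fin]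
      exact Nat.le_mul_of_pos_left _ hd
    · rw [if_neg hw, if_neg hw, mul_one, card_univ]

end Pool.Agent.Q202.DT
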