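import Pool.Agent.Q202.DT.Maps

/-!
# Subgames of a complete `d`-to-1 game
-/

set_option autoImplicit false

namespace Pool.Agent.Q202.DT

variable {d R n : ℕ}

/-- The labeling `M` of the left vertices and `L` of the right vertices satisfies the constraint of
the edge `e` (left vertex, right vertex) of the complete game `π`. -/
def Satd (π : Fin n × Fin n → DMap d R) (M : Fin n → Fin R) (L : Fin n → Fin (d * R))
    (e : Fin n × Fin n) : Prop :=
  (π e).map (L e.2) = M e.1

/-- The subgame with the set of edges `x` has value 1. -/
def ValueOne (π : Fin n × Fin n → DMap d R) (x : Fin n × Fin n → Bool) : Prop :=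
  ∃ (M : Fin n → Fin R) (L : Fin n → Fin (d * R)), ∀ e, x e = true → Satd π M L e

/-- The subgame with the set of edges `x` has value at most `1 / g`. -/
def ValueLe (π : Fin n × Fin n → DMap d R) (g : ℕ) (x : Fin n × Fin n → Bool) : Prop :=
  ∀ (M : Fin n → Fin R) (L : Fin n → Fin (d * R)),
    g * Nat.card {e // x e = true ∧ Satd π M L e} ≤ Nat.card {e // x e = true}

/-- The subgame has at least one edge. -/
def Nonvoid (x : Fin n × Fin n → Bool) : Prop := ∃ e, x e = true

end Pool.Agent.Q202.DT
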