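import Pool.Agent.Q202.DT.Bad
import Pool.Agent.TH700.PA.Count

/-!
# Tensor networks for subgames of a complete `d`-to-1 game
-/

set_option autoImplicit false

open Finset

namespace Pool.Agent.Q202.DT

open Pool.Agent.TH700.PA

variable {d R n t : ℕ}

/-- Most planted games have an edge. -/
theorem dense_nonvoid (π : Fin n × Fin n → DMap d R) (E : Finset (Fin n × Fin n)) (hd : 1 ≤ d)
    (hR : 1 ≤ R) (hn : 1 ≤ n) (κ1 : (1 : ℝ) ≤ (E.card : ℝ) / (4 * n * R)) :
    ∃ Y : Finset (Lab d R n), Fintype.card (Lab d R n) ≤ 2 ^ 1 * Y.card ∧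
      ∀ l ∈ Y, Nonvoid (ext E (fun _ => false) (fun v : {v // v ∈ E} => planted π l v.1)) := by
  classical
  obtain ⟨Y, hY⟩ : ∃ Y : Finset (Lab d R n), Y = univ.filter (fun l => ∃ v : {v // v ∈ E},
    planted π l v.1 = true) := ⟨_, rfl⟩
  refine ⟨Y, ?_, fun l hl => ?_⟩
  · obtain ⟨S, hS⟩ : ∃ S : Finset (Fin 1 → Lab d R n), S = univ.filter (fun b =>
      4 * R * (present π E (fun _ => (0 : Fin 1)) univ b).card ≤ E.card) := ⟨_, rfl⟩
    have h1 := few_small π E (fun _ => (0 : Fin 1)) hd hR hn κ1 S (fun b hb => by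
      rw [hS] at hb
      exact (mem_filter.1 hb).2)
    have h2 : (Yᶜ).card ≤ S.card := by
      refine card_le_card_of_injOn (fun l _ => l) (fun l hl => ?_) (fun l _ l' _ h => ?_)
      · rw [mem_coe, hS, mem_filter]
        refine ⟨mem_univ _, ?_⟩
        have h3 : present π E (fun _ => (0 : Fin 1)) univ (fun _ => l) = ∅ := by
          unfold present
          rw [filter_eq_empty_iff]
          intro v _ hv
          have h4 := mem_compl.1 (mem_coe.1 hl)
          apply h4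
          rw [hY, mem_filter]
          exact ⟨mem_univ _, v, hv.2⟩
        rw [h3, card_empty, mul_zero]
        exact Nat.zero_le _
      · exact congrFun h 0
    have h3 : Fintype.card (Fin 1 → Lab d R n) = Fintype.card (Lab d R n) := by
      rw [Fintype.card_fun, Fintype.card_fin, pow_one]
    have h4 : ((Yᶜ).card : ℝ) ≤ Fintype.card (Lab d R n) / 2 := by
      have h5 : ((Yᶜ).card : ℝ) ≤ S.card := by exact_mod_cast h2
      rw [h3, Real.rpow_neg (by norm_num), Real.rpow_one, ← div_eq_mul_inv] at h1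
      exact h5.trans h1
    have h5 : (Yᶜ).card + Y.card = Fintype.card (Lab d R n) := by
      rw [card_compl]
      have := card_le_univ Y
      omega
    have h6 : 2 * (Yᶜ).card ≤ Fintype.card (Lab d R n) := by
      have h7 : 2 * ((Yᶜ).card : ℝ) ≤ Fintype.card (Lab d R n) := by linarith
      exact_mod_cast h7
    rw [pow_one]
    omega
  · rw [hY, mem_filter] at hl
    obtain ⟨-, v, hv⟩ := hl
    refine ⟨v.1, ?_⟩
    unfold ext
    rw [dif_pos v.2]
    exact hv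

theorem main_dt : ∃ Γ : ℕ, ∀ d g h R : ℕ, 1 ≤ d → 1 ≤ g → 1 ≤ h → Γ * d * (g * h) ^ 4 ≤ R →
    ∃ N₀ : ℕ, ∀ n ≥ N₀, ∃ π : Fin n × Fin n → DMap d R,
    ∀ E : Finset (Fin n × Fin n), n * n ≤ h * E.card →
    ∀ (μ : ℕ) (S : Type) [Fintype S] [Nonempty S] (K W : S → Type) [∀ ρ, Field (K ρ)]
      [∀ ρ, Fintype (W ρ)] (T : ∀ ρ, Net (K ρ) (Fin n × Fin n) Bool (W ρ)) (a : ∀ ρ, W ρ → K ρ),
      (∀ ρ, ∀ e ∈ E, (T ρ).reads e ≤ 1) →
      (∀ ρ x, Nonvoid x → ValueLe π g x → (T ρ).value (a ρ) x = 0) →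
      (∀ x, Nonvoid x → ValueOne π x →
        Nat.card S ≤ 2 ^ μ * Nat.card {ρ // (T ρ).value (a ρ) x ≠ 0}) →
      ∃ ρ, 2 ^ n ≤ (2 ^ μ * Fintype.card (W ρ)) ^ (Γ * R * (g * h) ^ 4) := by
  classical
  refine ⟨2 ^ 50, fun d g h R hd hg hh hRG => ?_⟩
  obtain ⟨G, hG⟩ : ∃ G, G = g * h := ⟨_, rfl⟩
  rw [← hG] at hRG ⊢
  have hG1 : 1 ≤ G := by
    rw [hG]
    exact Nat.mul_pos hg hh
  have hhG : h ≤ G := by
    rw [hG]
    exact Nat.le_mul_of_pos_left _ hg
  obtain ⟨k, hk⟩ : ∃ k, k = 256 * G := ⟨_, rfl⟩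
  have hk1 : 1 ≤ k := by omega
  obtain ⟨t, ht⟩ : ∃ t, t = 8 * k ^ 2 + 1 := ⟨_, rfl⟩
  have ht1 : 1 ≤ t := by omega
  have hG2 : 1 ≤ G ^ 2 := Nat.one_le_pow _ _ hG1
  have htG : t + 1 ≤ 2 ^ 20 * G ^ 2 := by
    rw [ht, hk]
    have : 8 * (256 * G) ^ 2 = 524288 * G ^ 2 := by ring
    omega
  have hR1 : 2 ^ 50 * G ^ 4 ≤ R := by
    refine le_trans ?_ hRG
    calc 2 ^ 50 * G ^ 4 ≤ d * (2 ^ 50 * G ^ 4) := Nat.le_mul_of_pos_left _ hd
      _ = _ := by ring
  have hG4 : 1 ≤ G ^ 4 := Nat.one_le_pow _ _ hG1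
  have hR2 : 2 ≤ R := by omega
  have hRt : 2 * d * (2 * t) ^ 4 ≤ R ^ 2 := by
    have e1 : (2 * t) ^ 4 ≤ (2 ^ 21 * G ^ 2) ^ 4 := Nat.pow_le_pow_left (by omega) 4
    calc 2 * d * (2 * t) ^ 4 ≤ 2 * d * (2 ^ 21 * G ^ 2) ^ 4 := Nat.mul_le_mul_left _ e1
      _ = 2 ^ 85 * (d * G ^ 8) := by ring
      _ ≤ 2 ^ 100 * (d * (d * G ^ 8)) := by
          refine Nat.mul_le_mul (by norm_num) ?_
          exact Nat.le_mul_of_pos_left _ hd
      _ = (2 ^ 50 * d * G ^ 4) ^ 2 := by ring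
      _ ≤ R ^ 2 := Nat.pow_le_pow_left hRG 2
  have hRGt : 256 * G * t ≤ R := by
    calc 256 * G * t ≤ 256 * G * (2 ^ 20 * G ^ 2) := Nat.mul_le_mul_left _ (by omega)
      _ = 2 ^ 28 * G ^ 3 := by ring
      _ ≤ 2 ^ 50 * G ^ 4 := Nat.mul_le_mul (by norm_num) (Nat.pow_le_pow_right hG1 (by norm_num))
      _ ≤ R := hR1
  refine ⟨16 * G * t * R * (5 + 2 * (d * R * R)) + k * k * R * (2 * (t + 2) ^ 2) + k,
    fun n hn => ?_⟩
  have hn1 : 16 * G * t * R * (5 + 2 * (d * R * R)) ≤ n := by omega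
  have hn2 : k * k * R * (2 * (t + 2) ^ 2) ≤ n := by omega
  have hnk : k ≤ n := by omega
  have hn0 : 1 ≤ n := by omega
  obtain ⟨s₀, hs₀⟩ : ∃ s₀, s₀ = 2 + 2 * n + 2 * n * (d * R * R) := ⟨_, rfl⟩
  obtain ⟨s₁, hs₁⟩ : ∃ s₁, s₁ = 16 * (n * n) / (R * R) + s₀ + 1 := ⟨_, rfl⟩
  have hs0c : 2 * 4 ^ n * (d * R * R) ^ (2 * n) < 2 ^ s₀ := by
    have e1 : d * R * R ≤ 2 ^ (d * R * R) := Nat.lt_two_pow_self.le
    have e2 : (d * R * R) ^ (2 * n) ≤ 2 ^ (2 * n * (d * R * R)) := by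
      calc (d * R * R) ^ (2 * n) ≤ (2 ^ (d * R * R)) ^ (2 * n) := Nat.pow_le_pow_left e1 _
        _ = _ := by rw [← pow_mul]; congr 1; ring
    have e3 : 4 ^ n = 2 ^ (2 * n) := by rw [pow_mul]; norm_num
    calc 2 * 4 ^ n * (d * R * R) ^ (2 * n) ≤ 2 * 4 ^ n * 2 ^ (2 * n * (d * R * R)) :=
          Nat.mul_le_mul_left _ e2
      _ = 2 ^ (1 + 2 * n + 2 * n * (d * R * R)) := by rw [e3, pow_add, pow_add, pow_one]
      _ < _ := Nat.pow_lt_pow_right (by norm_num) (by omega)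
  obtain ⟨π, hπ⟩ := exists_spread (d := d) (R := R) (n := n) (s₀ := s₀) (s₁ := s₁) hR2 (by omega)
    hs0c (by
      rw [hs₁]
      exact Nat.le_succ_of_le (Nat.le_add_left _ _)) (by
      have e1 := Nat.lt_mul_div_succ (16 * (n * n)) (show 0 < R * R by positivity)
      have e2 : R * R * (16 * (n * n) / (R * R) + 1) ≤ R * R * s₁ :=
        Nat.mul_le_mul_left _ (by omega)
      have e3 : R * R ≤ 2 * ((R - 1) * R) := by
        obtain ⟨r, hr⟩ := Nat.exists_eq_add_of_le hR2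
        have : R - 1 = 1 + r := by omega
        rw [this, hr]
        nlinarith
      have e4 : R * R * s₁ ≤ 2 * ((R - 1) * R) * s₁ := Nat.mul_le_mul_right _ e3
      have e5 : 2 * ((R - 1) * R) * s₁ = 2 * ((R - 1) * R * s₁) := by ring
      omega)
  refine ⟨π, fun E hE μ S _ _ K W _ _ T a h1 hno hyes => ?_⟩
  have hEpos : 0 < E.card := by
    rcases Nat.eq_zero_or_pos E.card with h0 | h0
    · rw [h0, mul_zero] at hE
      have : 0 < n * n := Nat.mul_pos hn0 hn0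
      omega
    · exact h0
  have hEn : E.card ≤ n * n := by
    have := card_le_univ E
    rwa [Fintype.card_prod, Fintype.card_fin] at this
  -- the restricted networks
  have hres := fun ρ => exists_restrict E (card_pos.1 hEpos) (fun _ => false) (T ρ) (h1 ρ)
  choose T' hT1 hT2 using hres
  have hval : ∀ ρ x, (T' ρ).value (a ρ) x = (T ρ).value (a ρ) (ext E (fun _ => false) x) := by
    intro ρ x
    unfold Net.value
    rw [hT1]
  obtain ⟨y, hy⟩ : ∃ y, y = n / k := ⟨_, rfl⟩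
  have hy1 : 1 ≤ y := by
    rw [hy]
    exact Nat.div_pos hnk (by omega)
  have hyn : k * y ≤ n := by
    rw [hy]
    exact Nat.mul_div_le n _
  have hny : n ≤ 2 * k * y := by
    have := Nat.lt_mul_div_succ n (show 0 < k by omega)
    rw [← hy] at this
    nlinarith
  have hV : 2 * Fintype.card {v // v ∈ E} + y ^ 2 ≤ y ^ 2 * t := by
    rw [Fintype.card_coe, ht]
    have e2 : n * n ≤ (2 * k * y) * (2 * k * y) := Nat.mul_le_mul hny hny
    calc 2 * E.card + y ^ 2 ≤ 2 * ((2 * k * y) * (2 * k * y)) + y ^ 2 :=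
          Nat.add_le_add_right (Nat.mul_le_mul_left _ (hEn.trans e2)) _
      _ = _ := by ring
  have hnr : (0 : ℝ) < n := by exact_mod_cast hn0
  have hRr : (0 : ℝ) < R := by exact_mod_cast (by omega : 0 < R)
  have hkr : (0 : ℝ) < k := by exact_mod_cast hk1
  obtain ⟨κ, hκ⟩ : ∃ κ : ℝ, κ = n / (k * k * R) := ⟨_, rfl⟩
  have κ1 : κ ≤ (E.card : ℝ) / (4 * n * R) := by
    rw [hκ, div_le_div_iff₀ (by positivity) (by positivity)]
    have e1 : (n : ℝ) * n ≤ h * E.card := by exact_mod_cast hE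
    have e2 : 4 * (h : ℝ) ≤ k * k := by
      have : 4 * h ≤ k * k := by nlinarith
      exact_mod_cast this
    calc (n : ℝ) * (4 * n * R) = 4 * R * (n * n) := by ring
      _ ≤ 4 * R * (h * E.card) := mul_le_mul_of_nonneg_left e1 (by positivity)
      _ = R * E.card * (4 * h) := by ring
      _ ≤ R * E.card * (k * k) := mul_le_mul_of_nonneg_left e2 (by positivity)
      _ = _ := by ring
  have κ2 : κ ≤ 4 * (y : ℝ) ^ 2 / (n * R) := by
    rw [hκ, div_le_div_iff₀ (by positivity) (by positivity)]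
    have e1 : (n : ℝ) ≤ 2 * k * y := by exact_mod_cast hny
    calc (n : ℝ) * (n * R) = R * (n * n) := by ring
      _ ≤ R * ((2 * k * y) * (2 * k * y)) :=
          mul_le_mul_of_nonneg_left (mul_le_mul e1 e1 hnr.le (by positivity)) hRr.le
      _ = _ := by ring
  have κ3 : κ ≤ n := by
    rw [hκ, div_le_iff₀ (by positivity)]
    refine le_mul_of_one_le_right hnr.le ?_
    have : 1 ≤ k * k * R := Nat.mul_pos (Nat.mul_pos hk1 hk1) (by omega)
    exact_mod_cast this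
  -- the integer part
  obtain ⟨q, hq⟩ : ∃ q, q = n / (k * k * R) := ⟨_, rfl⟩
  have hkkR : 0 < k * k * R := Nat.mul_pos (Nat.mul_pos hk1 hk1) (by omega)
  have hqt : 2 * (t + 2) ^ 2 ≤ q := by
    rw [hq, Nat.le_div_iff_mul_le hkkR]
    calc 2 * (t + 2) ^ 2 * (k * k * R) = k * k * R * (2 * (t + 2) ^ 2) := by ring
      _ ≤ n := hn2
  have hqκ : (q : ℝ) ≤ κ := by
    rw [hκ, le_div_iff₀ (by positivity)]
    have e1 : q * (k * k * R) ≤ n := by
      rw [hq]
      exact Nat.div_mul_le_self _ _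
    exact_mod_cast e1
  have hqn : n ≤ 2 * (k * k * R) * q := by
    have e1 := Nat.lt_mul_div_succ n hkkR
    rw [← hq] at e1
    have e2 : 1 ≤ q := by
      have : 0 < (t + 2) ^ 2 := by positivity
      omega
    have e3 : k * k * R * (q + 1) = k * k * R * q + k * k * R := by ring
    have e4 : k * k * R ≤ k * k * R * q := Nat.le_mul_of_pos_right _ e2
    have e5 : 2 * (k * k * R) * q = k * k * R * q + k * k * R * q := by ring
    omega
  have hqt2 : t + 2 ≤ q := by nlinarith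
  obtain ⟨c, hc⟩ := Nat.exists_eq_add_of_le hqt2
  have hκ1 : (1 : ℝ) ≤ κ := by
    refine le_trans ?_ hqκ
    have : 1 ≤ q := by omega
    exact_mod_cast this
  obtain ⟨Y, hY1, hY2⟩ := dense_nonvoid π E hd (by omega) hn0 (hκ1.trans κ1)
  have c2 : 16 * g * h * t * R * (s₀ + 1) ≤ n * n := by
    calc 16 * g * h * t * R * (s₀ + 1) = 16 * G * t * R * (s₀ + 1) := by rw [hG]; ring
      _ ≤ 16 * G * t * R * (n * (5 + 2 * (d * R * R))) := by
          refine Nat.mul_le_mul_left _ ?_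
          rw [hs₀]
          have : n * (5 + 2 * (d * R * R)) = 5 * n + 2 * n * (d * R * R) := by ring
          omega
      _ = 16 * G * t * R * (5 + 2 * (d * R * R)) * n := by ring
      _ ≤ n * n := Nat.mul_le_mul_right _ hn1
  have c3 : 8 * g * h * t * R * s₁ ≤ n * n := by
    obtain ⟨z, hz⟩ : ∃ z, z = 16 * (n * n) / (R * R) := ⟨_, rfl⟩
    have e1 : z * (R * R) ≤ 16 * (n * n) := by
      rw [hz]
      exact Nat.div_mul_le_self _ _
    have e2 : 16 * G * t * R * z ≤ n * n := by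
      refine Nat.le_of_mul_le_mul_left (c := R) ?_ (by omega)
      calc R * (16 * G * t * R * z) = 16 * G * t * (z * (R * R)) := by ring
        _ ≤ 16 * G * t * (16 * (n * n)) := Nat.mul_le_mul_left _ e1
        _ = (256 * G * t) * (n * n) := by ring
        _ ≤ _ := Nat.mul_le_mul_right _ hRGt
    rw [hs₁, ← hz]
    have e3 : 8 * g * h * t * R * (z + s₀ + 1) = 8 * G * t * R * z +
        8 * g * h * t * R * (s₀ + 1) := by rw [hG]; ring
    have e4 : 16 * G * t * R * z = 2 * (8 * G * t * R * z) := by ring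
    have e5 : 16 * g * h * t * R * (s₀ + 1) = 2 * (8 * g * h * t * R * (s₀ + 1)) := by ring
    omega
  have : Nonempty (Fin R) := ⟨⟨0, by omega⟩⟩
  have : Nonempty (Fin (d * R)) := ⟨⟨0, Nat.mul_pos hd (by omega)⟩⟩
  obtain ⟨ρ, hρ, hw1⟩ := rand_density μ S K W T' a hT2 (θ := y ^ 2) (t := t)
    (Nat.one_le_pow _ _ hy1) ht1 hV (U := Lab d R n)
    (fun l (v : {v // v ∈ E}) => planted π l v.1) Y (η := 1) hY1
    (fun l hl => by
      have e1 := hyes _ (hY2 l hl) ⟨l.1, l.2, fun e he => by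
        unfold ext at he
        by_cases h : e ∈ E
        · rw [dif_pos h] at he
          unfold planted at he
          have h7 : (π e).map (l.2 e.2) = l.1 e.1 := of_decide_eq_true he
          exact h7
        · rw [dif_neg h] at he
          exact absurd he (by simp)⟩
      have e2 : {ρ // (T' ρ).value (a ρ) (fun v : {v // v ∈ E} => planted π l v.1) ≠ 0} =
          {ρ // (T ρ).value (a ρ)
            (ext E (fun _ => false) (fun v : {v // v ∈ E} => planted π l v.1)) ≠ 0} := by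
        congr 1
        funext ρ
        rw [hval]
      rw [e2]
      exact e1)
    (N := 2 ^ c) (fun ρ p hp => by
      obtain ⟨B, hB1, hB2⟩ := few_bad π E p (g := g) hd hh (by omega) hn0 hπ hE hp
        (by
          have : 256 * g * h * y = k * y := by rw [hk, hG]; ring
          omega) c2 c3 hRt κ1 κ2 κ3
      refine ⟨B, fun b hb => ?_, ?_⟩
      · by_contra hcon
        obtain ⟨f1, f2⟩ := hB1 b hcon
        apply hb
        rw [hval]
        exact hno ρ _ f1 f2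
      · have e1 : ((t : ℝ) + 2) * 2 ^ (-κ) * 2 ^ c ≤ 1 := by
          have e2 : (t : ℝ) + 2 ≤ 2 ^ (t + 2) := by
            have : t + 2 ≤ 2 ^ (t + 2) := Nat.lt_two_pow_self.le
            exact_mod_cast this
          have e3 : (2 : ℝ) ^ (t + 2) * 2 ^ c ≤ 2 ^ κ := by
            rw [← pow_add, ← hc, ← Real.rpow_natCast]
            exact Real.rpow_le_rpow_of_exponent_le (by norm_num) hqκ
          have e4 : (0 : ℝ) < 2 ^ κ := Real.rpow_pos_of_pos (by norm_num) _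
          rw [Real.rpow_neg (by norm_num)]
          calc ((t : ℝ) + 2) * (2 ^ κ)⁻¹ * 2 ^ c ≤ 2 ^ (t + 2) * (2 ^ κ)⁻¹ * 2 ^ c := by
                refine mul_le_mul_of_nonneg_right (mul_le_mul_of_nonneg_right e2 ?_)
                  (by positivity)
                exact (inv_pos.2 e4).le
            _ = (2 ^ (t + 2) * 2 ^ c) / 2 ^ κ := by ring
            _ ≤ 1 := by
              rw [div_le_one e4]
              exact e3
        have e2 : (B.card : ℝ) * 2 ^ c ≤ (Fintype.card (Lab d R n) : ℝ) ^ t := by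
          have e3 : (Fintype.card (Fin t → Lab d R n) : ℝ) = (Fintype.card (Lab d R n) : ℝ) ^ t := by
            rw [Fintype.card_fun, Fintype.card_fin]
            push_cast
            rfl
          rw [e3] at hB2
          calc (B.card : ℝ) * 2 ^ c ≤
              (Fintype.card (Lab d R n) : ℝ) ^ t * ((t + 2) * 2 ^ (-κ)) * 2 ^ c :=
                mul_le_mul_of_nonneg_right hB2 (by positivity)
            _ = (Fintype.card (Lab d R n) : ℝ) ^ t * (((t : ℝ) + 2) * 2 ^ (-κ) * 2 ^ c) := by ring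
            _ ≤ (Fintype.card (Lab d R n) : ℝ) ^ t * 1 :=
                mul_le_mul_of_nonneg_left e1 (by positivity)
            _ = _ := mul_one _
        exact_mod_cast e2)
  refine ⟨ρ, ?_⟩
  obtain ⟨w, hw⟩ : ∃ w, w = Fintype.card (W ρ) := ⟨_, rfl⟩
  rw [← hw] at hρ hw1 ⊢
  obtain ⟨X, hX⟩ : ∃ X, X = 2 ^ μ * w := ⟨_, rfl⟩
  have hX1 : 1 ≤ X := by
    rw [hX]
    exact Nat.mul_pos (Nat.pow_pos (by norm_num)) hw1
  rw [← hX]
  have e1 : 2 ^ (μ + 1 + 1) * (t * w ^ 3) ≤ 2 ^ (t + 2) * X ^ 3 := by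
    have e2 : t ≤ 2 ^ t := Nat.lt_two_pow_self.le
    have e3 : 2 ^ μ ≤ (2 ^ μ) ^ 3 := by
      conv_lhs => rw [← pow_one (2 ^ μ)]
      exact Nat.pow_le_pow_right (Nat.pow_pos (by norm_num)) (by norm_num)
    calc 2 ^ (μ + 1 + 1) * (t * w ^ 3) = 4 * (2 ^ μ * (t * w ^ 3)) := by
          rw [pow_succ, pow_succ]; ring
      _ ≤ 4 * ((2 ^ μ) ^ 3 * (2 ^ t * w ^ 3)) :=
          Nat.mul_le_mul_left _ (Nat.mul_le_mul e3 (Nat.mul_le_mul_right _ e2))
      _ = _ := by rw [hX, pow_add]; ring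
  have e2 : 2 ^ c ≤ 2 ^ ((t + 2) * (t + 1)) * X ^ (3 * (t + 1)) := by
    calc 2 ^ c ≤ (2 ^ (t + 2) * X ^ 3) ^ (t + 1) := hρ.trans (Nat.pow_le_pow_left e1 _)
      _ = _ := by rw [mul_pow, ← pow_mul, ← pow_mul]
  have e3 : 2 ^ q ≤ 2 ^ ((t + 2) ^ 2) * X ^ (3 * (t + 1)) := by
    calc 2 ^ q = 2 ^ (t + 2) * 2 ^ c := by rw [hc, pow_add]
      _ ≤ 2 ^ (t + 2) * (2 ^ ((t + 2) * (t + 1)) * X ^ (3 * (t + 1))) :=
          Nat.mul_le_mul_left _ e2
      _ = 2 ^ ((t + 2) + (t + 2) * (t + 1)) * X ^ (3 * (t + 1)) := by rw [pow_add]; ring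
      _ = _ := by congr 2; ring
  have e4 : 2 ^ q ≤ X ^ (6 * (t + 1)) := by
    refine Nat.le_of_mul_le_mul_left (c := 2 ^ q) ?_ (by positivity)
    calc 2 ^ q * 2 ^ q ≤ (2 ^ ((t + 2) ^ 2) * X ^ (3 * (t + 1))) *
          (2 ^ ((t + 2) ^ 2) * X ^ (3 * (t + 1))) := Nat.mul_le_mul e3 e3
      _ = 2 ^ (2 * (t + 2) ^ 2) * X ^ (6 * (t + 1)) := by
          rw [two_mul ((t + 2) ^ 2), pow_add, show 6 * (t + 1) = 3 * (t + 1) + 3 * (t + 1) by ring,
            pow_add]
          ring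
      _ ≤ _ := Nat.mul_le_mul_right _ (Nat.pow_le_pow_right (by norm_num) hqt)
  calc 2 ^ n ≤ 2 ^ (2 * (k * k * R) * q) := Nat.pow_le_pow_right (by norm_num) hqn
    _ = (2 ^ q) ^ (2 * (k * k * R)) := by rw [← pow_mul]; congr 1; ring
    _ ≤ (X ^ (6 * (t + 1))) ^ (2 * (k * k * R)) := Nat.pow_le_pow_left e4 _
    _ = X ^ ((t + 1) * (12 * (k * k * R))) := by rw [← pow_mul]; congr 1; ring
    _ ≤ _ := by
      refine Nat.pow_le_pow_right hX1 ?_
      calc (t + 1) * (12 * (k * k * R)) ≤ (2 ^ 20 * G ^ 2) * (12 * (k * k * R)) :=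
            Nat.mul_le_mul_right _ htG
        _ = (2 ^ 20 * 12 * 65536) * (R * G ^ 4) := by rw [hk]; ring
        _ ≤ 2 ^ 50 * (R * G ^ 4) := Nat.mul_le_mul_right _ (by norm_num)
        _ = _ := by ring

/-- The labelings that satisfy all edges are counted by linear networks. -/
theorem upper_dt (d R n : ℕ) (hn : 1 ≤ n) (π : Fin n × Fin n → DMap d R) :
    ∃ (T : Net ℚ (Fin n × Fin n) Bool (Lab d R n)) (a : Lab d R n → ℚ),
      T.Linear ∧ (∀ e, T.reads e = 1) ∧ T.size = 2 * (n * n) - 1 ∧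
        ∀ x, T.value a x ≠ 0 ↔ ValueOne π x := by
  classical
  have : Nonempty (Fin n × Fin n) := ⟨(⟨0, hn⟩, ⟨0, hn⟩)⟩
  obtain ⟨T, h1, h2, h3, h4⟩ := exists_product (K := ℚ)
    (fun (e : Fin n × Fin n) (b : Bool) (l : Lab d R n) =>
      if b = true → Satd π l.1 l.2 e then (1 : ℚ) else 0)
  refine ⟨T, fun _ => 1, h1, h2, by rw [h3, Fintype.card_prod, Fintype.card_fin], fun x => ?_⟩
  have h5 : ∀ l : Lab d R n, 0 ≤ T.eval x l ∧
      (T.eval x l ≠ 0 ↔ ∀ e, x e = true → Satd π l.1 l.2 e) := by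
    intro l
    rw [h4]
    refine ⟨prod_nonneg fun e _ => by split_ifs <;> norm_num, ?_⟩
    rw [prod_ne_zero_iff]
    constructor
    · intro h e
      by_contra hcon
      exact h e (mem_univ _) (if_neg hcon)
    · intro h e _
      rw [if_pos (h e)]
      exact one_ne_zero
  unfold Net.value
  rw [Ne, sum_eq_zero_iff_of_nonneg (fun l _ => by rw [one_mul]; exact (h5 l).1)]
  push Not
  constructor
  · rintro ⟨l, -, hl⟩
    rw [one_mul] at hl
    exact ⟨l.1, l.2, (h5 l).2.1 hl⟩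
  · rintro ⟨M, L, h⟩
    refine ⟨(M, L), mem_univ _, ?_⟩
    rw [one_mul]
    exact (h5 (M, L)).2.2 h

end Pool.Agent.Q202.DT
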