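import Mathlib.SetTheory.Cardinal.Finite
import Mathlib.Data.Fintype.Pi
import Mathlib.Logic.Equiv.Basic
import Mathlib.Logic.Equiv.Fin.Basic
import Mathlib.Algebra.BigOperators.Ring.Finset
import Mathlib.Algebra.Order.BigOperators.Group.Finset
import Mathlib.Data.Fintype.EquivFin
import Mathlib.Algebra.Order.BigOperators.Ring.Finset
import Mathlib.Algebra.Ring.Nat
import Mathlib.Algebra.Module.Defs
import Mathlib.Tactic.Ring
import Mathlib.Tactic.Linarith

/-!
# Maps whose fibers have exactly `d` elements
-/

set_option autoImplicit false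

open Finset

namespace Pool.Agent.Q202.DT

/-- The maps of the right labels to the left labels for which every left label has exactly `d`
preimages. -/
structure DMap (d R : ℕ) where
  /-- the map -/
  map : Fin (d * R) → Fin R
  /-- the numbers of preimages -/
  card_fiber : ∀ a, Nat.card {b // map b = a} = d

variable {d R : ℕ}

theorem DMap.ext' {ω ω' : DMap d R} (h : ω.map = ω'.map) : ω = ω' := by
  cases ω
  cases ω'
  cases h
  rfl

noncomputable instance : Fintype (DMap d R) :=
  Fintype.ofInjective DMap.map fun _ _ h => DMap.ext' h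

instance : Nonempty (DMap d R) := by
  refine ⟨⟨fun b => (finProdFinEquiv.symm b).2, fun a => ?_⟩⟩
  have h1 : {b : Fin (d * R) // (finProdFinEquiv.symm b).2 = a} ≃ Fin d :=
    { toFun := fun b => (finProdFinEquiv.symm b.1).1
      invFun := fun i => ⟨finProdFinEquiv (i, a), by rw [Equiv.symm_apply_apply]⟩
      left_inv := by
        rintro ⟨b, hb⟩
        refine Subtype.ext ?_
        show finProdFinEquiv ((finProdFinEquiv.symm b).1, a) = b
        rw [← hb]
        exact Equiv.apply_symm_apply finProdFinEquiv b
      right_inv := by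
        intro i
        show (finProdFinEquiv.symm (finProdFinEquiv (i, a))).1 = i
        rw [Equiv.symm_apply_apply] }
  rw [Nat.card_congr h1, Nat.card_eq_fintype_card, Fintype.card_fin]

/-- The number of preimages as the size of a set. -/
theorem DMap.fiber (ω : DMap d R) (a : Fin R) :
    (univ.filter (fun b => ω.map b = a)).card = d := by
  have h := ω.card_fiber a
  rw [Nat.card_eq_fintype_card, Fintype.card_subtype] at h
  exact h

/-- Composition with a permutation of the values. -/
def postc (σ : Equiv.Perm (Fin R)) (ω : DMap d R) : DMap d R :=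
  ⟨fun i => σ (ω.map i), fun b => by
    have h1 : Nat.card {a // σ (ω.map a) = b} = Nat.card {a // ω.map a = σ.symm b} :=
      Nat.card_congr (Equiv.subtypeEquivRight fun a => by rw [Equiv.eq_symm_apply])
    rw [h1]
    exact ω.card_fiber _⟩

/-- Composition with a permutation of the arguments. -/
def prec (σ : Equiv.Perm (Fin (d * R))) (ω : DMap d R) : DMap d R :=
  ⟨fun i => ω.map (σ i), fun b => by
    have h1 : Nat.card {a // ω.map (σ a) = b} = Nat.card {a // ω.map a = b} :=
      Nat.card_congr (σ.subtypeEquiv fun a => Iff.rfl)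
    rw [h1]
    exact ω.card_fiber _⟩

theorem postc_injective (σ : Equiv.Perm (Fin R)) :
    Function.Injective (postc σ : DMap d R → DMap d R) := by
  intro ω ω' h
  refine DMap.ext' (funext fun i => ?_)
  have h1 := congrFun (congrArg DMap.map h) i
  exact σ.injective h1

theorem prec_injective (σ : Equiv.Perm (Fin (d * R))) :
    Function.Injective (prec σ : DMap d R → DMap d R) := by
  intro ω ω' h
  refine DMap.ext' (funext fun i => ?_)
  have h1 := congrFun (congrArg DMap.map h) (σ.symm i)
  have h2 : ω.map (σ (σ.symm i)) = ω'.map (σ (σ.symm i)) := h1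
  rwa [Equiv.apply_symm_apply] at h2

/-- The value at one place is uniform. -/
theorem card_one (b : Fin (d * R)) (a : Fin R) :
    R * (univ.filter (fun ω : DMap d R => ω.map b = a)).card = Fintype.card (DMap d R) := by
  classical
  have h1 : ∀ a' : Fin R, (univ.filter (fun ω : DMap d R => ω.map b = a')).card =
      (univ.filter (fun ω : DMap d R => ω.map b = a)).card := by
    have h2 : ∀ a₁ a₂ : Fin R, (univ.filter (fun ω : DMap d R => ω.map b = a₁)).card ≤
        (univ.filter (fun ω : DMap d R => ω.map b = a₂)).card := by
      intro a₁ a₂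
      refine card_le_card_of_injOn (postc (Equiv.swap a₁ a₂)) (fun ω hω => ?_)
        (postc_injective _).injOn
      rw [mem_coe, mem_filter] at hω ⊢
      refine ⟨mem_univ _, ?_⟩
      show Equiv.swap a₁ a₂ (ω.map b) = a₂
      rw [hω.2, Equiv.swap_apply_left]
    exact fun a' => le_antisymm (h2 _ _) (h2 _ _)
  have h3 : (univ : Finset (DMap d R)).card =
      ∑ a' : Fin R, (univ.filter (fun ω : DMap d R => ω.map b = a')).card :=
    card_eq_sum_card_fiberwise (f := fun ω : DMap d R => ω.map b) (fun _ _ => mem_univ _)
  rw [← card_univ, h3, sum_congr rfl fun a' _ => h1 a', sum_const, card_univ,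
    Fintype.card_fin, smul_eq_mul]

/-- The values at two places are nearly independent. -/
theorem card_two {b b' : Fin (d * R)} (hbb : b ≠ b') (a a' : Fin R) :
    (R - 1) * (univ.filter (fun ω : DMap d R => ω.map b = a ∧ ω.map b' = a')).card ≤
      (univ.filter (fun ω : DMap d R => ω.map b = a)).card := by
  classical
  by_cases haa : a' = a
  · subst haa
    have h1 : ∀ b'' ∈ (univ : Finset (Fin (d * R))).erase b,
        (univ.filter (fun ω : DMap d R => ω.map b = a' ∧ ω.map b' = a')).card ≤
        (univ.filter (fun ω : DMap d R => ω.map b = a' ∧ ω.map b'' = a')).card := by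
      intro b'' hb''
      rw [mem_erase] at hb''
      refine card_le_card_of_injOn (prec (Equiv.swap b' b'')) (fun ω hω => ?_)
        (prec_injective _).injOn
      rw [mem_coe, mem_filter] at hω ⊢
      refine ⟨mem_univ _, ?_, ?_⟩
      · show ω.map (Equiv.swap b' b'' b) = a'
        rw [Equiv.swap_apply_of_ne_of_ne hbb hb''.1.symm]
        exact hω.2.1
      · show ω.map (Equiv.swap b' b'' b'') = a'
        rw [Equiv.swap_apply_right]
        exact hω.2.2
    have h2 : ∑ b'' ∈ (univ : Finset (Fin (d * R))).erase b,
        (univ.filter (fun ω : DMap d R => ω.map b = a' ∧ ω.map b'' = a')).card =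
        (d - 1) * (univ.filter (fun ω : DMap d R => ω.map b = a')).card := by
      have h3 : ∀ b'' : Fin (d * R),
          (univ.filter (fun ω : DMap d R => ω.map b = a' ∧ ω.map b'' = a')).card =
          ∑ ω ∈ univ.filter (fun ω : DMap d R => ω.map b = a'), if ω.map b'' = a' then 1 else 0 := by
        intro b''
        rw [← filter_filter, card_filter]
      have h6 : (d - 1) * (univ.filter (fun ω : DMap d R => ω.map b = a')).card =
          ∑ _ω ∈ univ.filter (fun ω : DMap d R => ω.map b = a'), (d - 1) := by
        rw [sum_const, smul_eq_mul, Nat.mul_comm]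
      rw [sum_congr rfl fun b'' _ => h3 b'', sum_comm, h6]
      refine sum_congr rfl fun ω hω => ?_
      rw [← card_filter]
      have h4 := ω.fiber a'
      have h5 : ((univ : Finset (Fin (d * R))).erase b).filter (fun b'' => ω.map b'' = a') =
          (univ.filter (fun b'' => ω.map b'' = a')).erase b := by
        ext i
        simp only [mem_filter, mem_erase, mem_univ, true_and]
        tauto
      rw [h5, card_erase_of_mem (by
        rw [mem_filter]
        exact ⟨mem_univ _, (mem_filter.1 hω).2⟩), h4]
    obtain ⟨x, hx⟩ : ∃ x, x = (univ.filter (fun ω : DMap d R => ω.map b = a' ∧ ω.map b' = a')).card :=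
      ⟨_, rfl⟩
    obtain ⟨y, hy⟩ : ∃ y, y = (univ.filter (fun ω : DMap d R => ω.map b = a')).card := ⟨_, rfl⟩
    have h3 : (d * R - 1) * x ≤ (d - 1) * y := by
      rw [hx, hy, ← h2]
      calc (d * R - 1) * (univ.filter (fun ω : DMap d R => ω.map b = a' ∧ ω.map b' = a')).card =
          ∑ _b'' ∈ (univ : Finset (Fin (d * R))).erase b,
            (univ.filter (fun ω : DMap d R => ω.map b = a' ∧ ω.map b' = a')).card := by
            rw [sum_const, card_erase_of_mem (mem_univ _), card_univ, Fintype.card_fin,
              smul_eq_mul]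
        _ ≤ _ := sum_le_sum h1
    rw [← hx, ← hy]
    have hR : 0 < R := a'.pos
    rcases Nat.eq_zero_or_pos d with hd | hd
    · exfalso
      subst hd
      have := b.2
      omega
    obtain ⟨e, rfl⟩ := Nat.exists_eq_add_of_le hd
    obtain ⟨r, rfl⟩ := Nat.exists_eq_add_of_le hR
    rcases Nat.eq_zero_or_pos e with he | he
    · subst he
      have h4 : (1 + 0) * (1 + r) - 1 = r := by omega
      rw [h4] at h3
      have h5 : (1 + 0 - 1) * y = 0 := by simp
      rw [h5] at h3
      have h6 : 1 + r - 1 = r := by omega
      rw [h6]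
      omega
    · have h4 : (1 + e) * (1 + r) - 1 = e + r + e * r := by
        have : (1 + e) * (1 + r) = 1 + (e + r + e * r) := by ring
        omega
      have h5 : 1 + e - 1 = e := by omega
      have h6 : 1 + r - 1 = r := by omega
      rw [h4, h5] at h3
      rw [h6]
      refine Nat.le_of_mul_le_mul_left (c := e) ?_ he
      calc e * (r * x) = (e * r) * x := by ring
        _ ≤ (e + r + e * r) * x := Nat.mul_le_mul_right _ (by omega)
        _ ≤ _ := h3
  · have h1 : ∀ a'' ∈ (univ : Finset (Fin R)).erase a,
        (univ.filter (fun ω : DMap d R => ω.map b = a ∧ ω.map b' = a')).card ≤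
        (univ.filter (fun ω : DMap d R => ω.map b = a ∧ ω.map b' = a'')).card := by
      intro a'' ha''
      rw [mem_erase] at ha''
      refine card_le_card_of_injOn (postc (Equiv.swap a' a'')) (fun ω hω => ?_)
        (postc_injective _).injOn
      rw [mem_coe, mem_filter] at hω ⊢
      refine ⟨mem_univ _, ?_, ?_⟩
      · show Equiv.swap a' a'' (ω.map b) = a
        rw [hω.2.1, Equiv.swap_apply_of_ne_of_ne (Ne.symm haa) ha''.1.symm]
      · show Equiv.swap a' a'' (ω.map b') = a''
        rw [hω.2.2, Equiv.swap_apply_left]
    have h2 : ∑ a'' ∈ (univ : Finset (Fin R)).erase a,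
        (univ.filter (fun ω : DMap d R => ω.map b = a ∧ ω.map b' = a'')).card ≤
        (univ.filter (fun ω : DMap d R => ω.map b = a)).card := by
      rw [← card_biUnion]
      · refine card_le_card fun ω hω => ?_
        obtain ⟨a'', -, h⟩ := mem_biUnion.1 hω
        exact mem_filter.2 ⟨mem_univ _, (mem_filter.1 h).2.1⟩
      · intro d₁ _ d₂ _ hne
        rw [Function.onFun, disjoint_left]
        intro ω h₁ h₂
        exact hne ((mem_filter.1 h₁).2.2.symm.trans (mem_filter.1 h₂).2.2)
    calc (R - 1) * (univ.filter (fun ω : DMap d R => ω.map b = a ∧ ω.map b' = a')).card =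
        ∑ _a'' ∈ (univ : Finset (Fin R)).erase a,
          (univ.filter (fun ω : DMap d R => ω.map b = a ∧ ω.map b' = a')).card := by
          rw [sum_const, card_erase_of_mem (mem_univ _), card_univ, Fintype.card_fin, smul_eq_mul]
      _ ≤ _ := (sum_le_sum h1).trans h2

end Pool.Agent.Q202.DT
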