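import Pool.Agent.TH700.PA.Density

/-!
# Fixing some variables of a tree tensor network
-/

set_option autoImplicit false

open Finset

namespace Pool.Agent.Q202.DT

open Pool.Agent.TH700.PA

variable {V K Al W : Type}

/-- A linear map is applied to the vector of the root. -/
def mapOut [Semiring K] [Fintype W] (m : W → W → K) : Net K V Al W → Net K V Al W
  | .leaf v f => .leaf v (fun a k => ∑ i, m i k * f a i)
  | .node l r c => .node l r (fun i j k => ∑ p, m p k * c i j p)

theorem mapOut_eval [CommSemiring K] [Fintype W] (m : W → W → K) (T : Net K V Al W) (x : V → Al)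
    (k : W) : (mapOut m T).eval x k = ∑ i, m i k * T.eval x i := by
  cases T with
  | leaf v f => rfl
  | node l r c =>
    show ∑ i, ∑ j, (∑ p, m p k * c i j p) * (l.eval x i * r.eval x j) =
      ∑ p, m p k * ∑ i, ∑ j, c i j p * (l.eval x i * r.eval x j)
    simp only [sum_mul, mul_sum]
    have h1 : ∀ i : W, ∑ j, ∑ p, m p k * c i j p * (l.eval x i * r.eval x j) =
        ∑ p, ∑ j, m p k * c i j p * (l.eval x i * r.eval x j) := fun i => sum_comm
    rw [sum_congr rfl fun i _ => h1 i, sum_comm]
    refine sum_congr rfl fun p _ => sum_congr rfl fun i _ => sum_congr rfl fun j _ => ?_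
    ring

theorem mapOut_reads [Semiring K] [Fintype W] (m : W → W → K) (T : Net K V Al W) (v : V) :
    (mapOut m T).reads v = T.reads v := by
  cases T with
  | leaf u f => rfl
  | node l r c => rfl

open Classical in
/-- The assignment `x` of the variables in `E`, completed by `x₀`. -/
noncomputable def ext (E : Finset V) (x₀ : V → Al) (x : {v // v ∈ E} → Al) : V → Al :=
  fun v => if h : v ∈ E then x ⟨v, h⟩ else x₀ v

theorem restrict_aux [CommSemiring K] [Fintype W] (E : Finset V) (x₀ : V → Al)
    (T : Net K V Al W) :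
    (∃ T' : Net K {v // v ∈ E} Al W, (∀ x, T'.eval x = T.eval (ext E x₀ x)) ∧
      ∀ v, T'.reads v ≤ T.reads v.1) ∨ ∃ c : W → K, ∀ x, T.eval (ext E x₀ x) = c := by
  classical
  induction T with
  | leaf v f =>
    by_cases h : v ∈ E
    · left
      refine ⟨.leaf ⟨v, h⟩ f, fun x => ?_, fun u => ?_⟩
      · show f (x ⟨v, h⟩) = f (ext E x₀ x v)
        unfold ext
        rw [dif_pos h]
      · unfold Net.reads
        by_cases hu : v = u.1
        · rw [if_pos hu]
          split_ifs <;> omega
        · rw [if_neg hu, if_neg]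
          intro he
          exact hu (congrArg Subtype.val he)
    · right
      refine ⟨f (x₀ v), fun x => ?_⟩
      show f (ext E x₀ x v) = f (x₀ v)
      unfold ext
      rw [dif_neg h]
  | node l r c hl hr =>
    rcases hl with ⟨l', hl1, hl2⟩ | ⟨cl, hcl⟩
    · rcases hr with ⟨r', hr1, hr2⟩ | ⟨cr, hcr⟩
      · left
        refine ⟨.node l' r' c, fun x => ?_, fun v => ?_⟩
        · show (fun k => ∑ i, ∑ j, c i j k * (l'.eval x i * r'.eval x j)) = _
          rw [hl1, hr1]
          rfl
        · exact Nat.add_le_add (hl2 v) (hr2 v)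
      · left
        refine ⟨mapOut (fun i k => ∑ j, c i j k * cr j) l', fun x => ?_, fun v => ?_⟩
        · funext k
          rw [mapOut_eval, hl1]
          show _ = ∑ i, ∑ j, c i j k * (l.eval (ext E x₀ x) i * r.eval (ext E x₀ x) j)
          rw [hcr]
          refine sum_congr rfl fun i _ => ?_
          rw [sum_mul]
          refine sum_congr rfl fun j _ => ?_
          ring
        · rw [mapOut_reads]
          exact (hl2 v).trans (Nat.le_add_right _ _)
    · rcases hr with ⟨r', hr1, hr2⟩ | ⟨cr, hcr⟩
      · left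
        refine ⟨mapOut (fun j k => ∑ i, c i j k * cl i) r', fun x => ?_, fun v => ?_⟩
        · funext k
          rw [mapOut_eval, hr1]
          show _ = ∑ i, ∑ j, c i j k * (l.eval (ext E x₀ x) i * r.eval (ext E x₀ x) j)
          rw [hcl, sum_comm]
          refine sum_congr rfl fun j _ => ?_
          rw [sum_mul]
          refine sum_congr rfl fun i _ => ?_
          ring
        · rw [mapOut_reads]
          exact (hr2 v).trans (Nat.le_add_left _ _)
      · right
        refine ⟨fun k => ∑ i, ∑ j, c i j k * (cl i * cr j), fun x => ?_⟩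
        show (fun k => ∑ i, ∑ j, c i j k *
          (l.eval (ext E x₀ x) i * r.eval (ext E x₀ x) j)) = _
        rw [hcl, hcr]

/-- Fixing the variables outside `E`. -/
theorem exists_restrict [CommSemiring K] [Fintype W] (E : Finset V) (hE : E.Nonempty)
    (x₀ : V → Al) (T : Net K V Al W) (h : ∀ v ∈ E, T.reads v ≤ 1) :
    ∃ T' : Net K {v // v ∈ E} Al W, (∀ x, T'.eval x = T.eval (ext E x₀ x)) ∧
      ∀ v, T'.reads v ≤ 1 := by
  classical
  rcases restrict_aux E x₀ T with ⟨T', h1, h2⟩ | ⟨c, hc⟩
  · exact ⟨T', h1, fun v => (h2 v).trans (h v.1 v.2)⟩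
  · obtain ⟨v, hv⟩ := hE
    refine ⟨.leaf ⟨v, hv⟩ (fun _ => c), fun x => (hc x).symm, fun u => ?_⟩
    unfold Net.reads
    split_ifs <;> omega

end Pool.Agent.Q202.DT
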