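import Pool.Agent.Q202.DT.Count
import Pool.Agent.Q202.DT.Restrict
import Pool.Agent.Q202.DT.Game

/-!
# Mixtures of planted games have small value
-/

set_option autoImplicit false

open Finset

namespace Pool.Agent.Q202.DT

open Pool.Agent.TH700.PA (mixp choose_mul_pow_le)

variable {d R n t : ℕ}

/-- The mixture of planted games. -/
noncomputable def mixed (π : Fin n × Fin n → DMap d R) (E : Finset (Fin n × Fin n))
    (p : {v // v ∈ E} → Fin t) (b : Fin t → Lab d R n) : Fin n × Fin n → Bool :=
  ext E (fun _ => false) (mixp p (fun l (v : {v // v ∈ E}) => planted π l v.1) b)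

variable (π : Fin n × Fin n → DMap d R) (E : Finset (Fin n × Fin n)) (p : {v // v ∈ E} → Fin t)

theorem mixed_iff (b : Fin t → Lab d R n) (e : Fin n × Fin n) :
    mixed π E p b e = true ↔ ∃ h : e ∈ E, (⟨e, h⟩ : {v // v ∈ E}) ∈ present π E p univ b := by
  unfold mixed ext
  by_cases h : e ∈ E
  · rw [dif_pos h]
    unfold mixp present
    constructor
    · intro h1
      exact ⟨h, mem_filter.2 ⟨mem_univ _, mem_univ _, h1⟩⟩
    · rintro ⟨h1, h2⟩
      exact (mem_filter.1 h2).2.2
  · rw [dif_neg h]
    constructor
    · intro h1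
      exact absurd h1 (by simp)
    · rintro ⟨h1, -⟩
      exact absurd h1 h

open Classical in
theorem card_mixed (b : Fin t → Lab d R n) (P : Fin n × Fin n → Prop) :
    Nat.card {e // mixed π E p b e = true ∧ P e} =
      ((present π E p univ b).filter (fun v => P v.1)).card := by
  have h1 : {e // mixed π E p b e = true ∧ P e} ≃
      {v : {v // v ∈ E} // v ∈ (present π E p univ b).filter (fun v => P v.1)} :=
    { toFun := fun e => ⟨⟨e.1, ((mixed_iff π E p b e.1).1 e.2.1).choose⟩,
        mem_filter.2 ⟨((mixed_iff π E p b e.1).1 e.2.1).choose_spec, e.2.2⟩⟩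
      invFun := fun v => ⟨v.1.1, (mixed_iff π E p b v.1.1).2 ⟨v.1.2, (mem_filter.1 v.2).1⟩,
        (mem_filter.1 v.2).2⟩
      left_inv := fun e => rfl
      right_inv := fun v => rfl }
  rw [Nat.card_congr h1, Nat.card_eq_fintype_card, Fintype.card_coe]

theorem card_mixed' (b : Fin t → Lab d R n) :
    Nat.card {e // mixed π E p b e = true} = (present π E p univ b).card := by
  classical
  have h1 := card_mixed π E p b (fun _ => True)
  simp only [filter_true, and_true] at h1
  exact h1

/-- The satisfied constraints of a good mixture. -/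
theorem sat_bound {s₀ s₁ y : ℕ} (hπ : Spread π s₀ s₁) (b : Fin t → Lab d R n)
    (h1 : ∀ j, R * (present π E p {j} b).card ≤ 8 * y ^ 2)
    (l : Lab d R n) (h2 : (agree b l).card ≤ 4 * n) :
    R * Nat.card {e // mixed π E p b e = true ∧ Satd π l.1 l.2 e} ≤
      R * (t * s₁) + (R * (t * (s₀ + 1)) + 16 * (y * n)) := by
  classical
  rw [card_mixed]
  -- accidental satisfaction
  obtain ⟨Ac, hAc⟩ : ∃ Ac : Finset {v // v ∈ E}, Ac = (present π E p univ b).filter
      (fun v => Satd π l.1 l.2 v.1 ∧ l.2 v.1.2 ≠ (b (p v)).2 v.1.2) := ⟨_, rfl⟩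
  obtain ⟨Ag, hAg⟩ : ∃ Ag : Finset {v // v ∈ E}, Ag = (present π E p univ b).filter
      (fun v => Satd π l.1 l.2 v.1 ∧ l.2 v.1.2 = (b (p v)).2 v.1.2) := ⟨_, rfl⟩
  have h3 : ((present π E p univ b).filter (fun v => Satd π l.1 l.2 v.1)).card ≤
      Ac.card + Ag.card := by
    refine le_trans (card_le_card fun v hv => ?_) (card_union_le _ _)
    rw [mem_filter] at hv
    rw [mem_union, hAc, hAg, mem_filter, mem_filter]
    by_cases h : l.2 v.1.2 = (b (p v)).2 v.1.2
    · exact Or.inr ⟨hv.1, hv.2, h⟩
    · exact Or.inl ⟨hv.1, hv.2, h⟩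
  have h4 : Ac.card ≤ t * s₁ := by
    have e1 : Ac.card = ∑ j : Fin t, (Ac.filter (fun v => p v = j)).card :=
      card_eq_sum_card_fiberwise (fun _ _ => mem_univ _)
    rw [e1]
    calc ∑ j : Fin t, (Ac.filter (fun v => p v = j)).card ≤ ∑ _j : Fin t, s₁ := by
          refine sum_le_sum fun j _ => ?_
          have e2 := hπ.two l (b j) ((Ac.filter (fun v => p v = j)).map
            ⟨Subtype.val, Subtype.val_injective⟩) (fun e he => by
              rw [mem_map] at he
              obtain ⟨v, hv, rfl⟩ := he
              rw [mem_filter, hAc, mem_filter] at hv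
              obtain ⟨⟨g1, g2, g3⟩, rfl⟩ := hv
              refine ⟨g3, g2, ?_⟩
              have g4 := (mem_filter.1 g1).2.2
              unfold planted at g4
              exact of_decide_eq_true g4)
          rw [card_map] at e2
          exact e2.le
      _ = _ := by rw [sum_const, card_univ, Fintype.card_fin, smul_eq_mul]
  have h5 : R * Ag.card ≤ R * (t * (s₀ + 1)) + 16 * (y * n) := by
    have e1 : Ag.card = ∑ j : Fin t, (Ag.filter (fun v => p v = j)).card :=
      card_eq_sum_card_fiberwise (fun _ _ => mem_univ _)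
    have e2 : (agree b l).card = ∑ j : Fin t, ((agree b l).filter (fun s => s.1 = j)).card :=
      card_eq_sum_card_fiberwise (fun _ _ => mem_univ _)
    have e3 : ∀ j : Fin t, R * (Ag.filter (fun v => p v = j)).card ≤
        R * (s₀ + 1) + 4 * y * ((agree b l).filter (fun s => s.1 = j)).card := by
      intro j
      obtain ⟨A, hA⟩ : ∃ A : Finset (Fin n), A = univ.filter (fun v => (b j).1 v = l.1 v) :=
        ⟨_, rfl⟩
      obtain ⟨B, hB⟩ : ∃ B : Finset (Fin n), B = univ.filter (fun w => (b j).2 w = l.2 w) :=
        ⟨_, rfl⟩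
      have f1 : A.card + B.card ≤ ((agree b l).filter (fun s => s.1 = j)).card := by
        have f2 : (A.map ⟨fun v => (j, (Sum.inl v : Fin n ⊕ Fin n)), fun v v' h => by
            have := congrArg Prod.snd h
            exact Sum.inl.inj this⟩) ∪ (B.map ⟨fun w => (j, (Sum.inr w : Fin n ⊕ Fin n)),
            fun v v' h => by
              have := congrArg Prod.snd h
              exact Sum.inr.inj this⟩) ⊆ (agree b l).filter (fun s => s.1 = j) := by
          intro s hs
          rw [mem_union, mem_map, mem_map] at hs
          rw [mem_filter]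
          unfold agree
          rw [mem_filter]
          rcases hs with ⟨v, hv, rfl⟩ | ⟨w, hw, rfl⟩
          · rw [hA, mem_filter] at hv
            exact ⟨⟨mem_univ _, hv.2⟩, rfl⟩
          · rw [hB, mem_filter] at hw
            exact ⟨⟨mem_univ _, hw.2⟩, rfl⟩
        have f3 := card_le_card f2
        rw [card_union_of_disjoint, card_map, card_map] at f3
        · exact f3
        · rw [disjoint_left]
          intro s hs hs'
          rw [mem_map] at hs hs'
          obtain ⟨v, -, rfl⟩ := hs
          obtain ⟨w, -, hw⟩ := hs'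
          have := congrArg Prod.snd hw
          exact absurd this (by simp)
      have f4 := hπ.one (b j) A B ((Ag.filter (fun v => p v = j)).map
            ⟨Subtype.val, Subtype.val_injective⟩) (fun e he => by
              rw [mem_map] at he
              obtain ⟨v, hv, rfl⟩ := he
              rw [mem_filter, hAg, mem_filter] at hv
              obtain ⟨⟨g1, g2, g3⟩, rfl⟩ := hv
              have g4 := (mem_filter.1 g1).2.2
              unfold planted at g4
              have g5 := of_decide_eq_true g4
              refine ⟨?_, ?_, g5⟩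
              · show v.1.1 ∈ A
                rw [hA, mem_filter]
                refine ⟨mem_univ _, ?_⟩
                unfold Satd at g2
                rw [g3] at g2
                exact g5.symm.trans g2
              · show v.1.2 ∈ B
                rw [hB, mem_filter]
                exact ⟨mem_univ _, g3.symm⟩)
      rw [card_map] at f4
      have f5 : (Ag.filter (fun v => p v = j)).card ≤ (present π E p {j} b).card := by
        refine card_le_card fun v hv => ?_
        rw [mem_filter, hAg, mem_filter] at hv
        unfold present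
        rw [mem_filter, mem_singleton]
        exact ⟨mem_univ _, hv.2, (mem_filter.1 hv.1.1).2.2⟩
      obtain ⟨z, hz⟩ : ∃ z, z = (Ag.filter (fun v => p v = j)).card := ⟨_, rfl⟩
      obtain ⟨k, hk⟩ : ∃ k, k = ((agree b l).filter (fun s => s.1 = j)).card := ⟨_, rfl⟩
      rw [← hz] at f4 f5 ⊢
      rw [← hk] at f1 ⊢
      have f6 : R * z ≤ 8 * y ^ 2 := (Nat.mul_le_mul_left _ f5).trans (h1 j)
      rcases Nat.lt_or_ge k (2 * y) with hky | hky
      · have f7 : R * z ≤ R * s₀ + (8 * (A.card * B.card) + R) := by
          have f8 : R * (8 * (A.card * B.card) / R) ≤ 8 * (A.card * B.card) := Nat.mul_div_le _ _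
          rcases lt_max_iff.1 f4 with f9 | f9
          · exact (Nat.mul_le_mul_left _ f9.le).trans (Nat.le_add_right _ _)
          · calc R * z ≤ R * (8 * (A.card * B.card) / R + 1) := Nat.mul_le_mul_left _ f9.le
              _ = R * (8 * (A.card * B.card) / R) + R := by ring
              _ ≤ _ := by omega
        have f8 : 8 * (A.card * B.card) ≤ 4 * y * k := by
          have g1 : 4 * (A.card * B.card) ≤ k * k := by nlinarith [sq_nonneg ((A.card : ℤ) - B.card)]
          have g2 : 2 * (k * k) ≤ 4 * y * k := by nlinarith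
          omega
        have f9 : R * (s₀ + 1) = R * s₀ + R := by ring
        omega
      · have f7 : 8 * y ^ 2 ≤ 4 * y * k := by nlinarith
        omega
    rw [e1, mul_sum]
    calc ∑ j : Fin t, R * (Ag.filter (fun v => p v = j)).card ≤
        ∑ j : Fin t, (R * (s₀ + 1) + 4 * y * ((agree b l).filter (fun s => s.1 = j)).card) :=
          sum_le_sum fun j _ => e3 j
      _ = t * (R * (s₀ + 1)) + 4 * y * (agree b l).card := by
          rw [sum_add_distrib, sum_const, card_univ, Fintype.card_fin, smul_eq_mul, ← mul_sum, e2]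
      _ ≤ t * (R * (s₀ + 1)) + 4 * y * (4 * n) :=
          Nat.add_le_add_left (Nat.mul_le_mul_left _ h2) _
      _ = _ := by ring
  calc R * ((present π E p univ b).filter (fun v => Satd π l.1 l.2 v.1)).card ≤
      R * (Ac.card + Ag.card) := Nat.mul_le_mul_left _ h3
    _ = R * Ac.card + R * Ag.card := by ring
    _ ≤ _ := Nat.add_le_add (Nat.mul_le_mul_left _ h4) h5

end Pool.Agent.Q202.DT
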