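import Pool.Agent.Q202.DT.Maps
import Pool.Agent.TH700.PA.GameTight

/-!
# Complete games whose constraint maps are spread out
-/

set_option autoImplicit false

open Finset

namespace Pool.Agent.Q202.DT

open Pool.Agent.TH700.PA (choose_mul_pow_le)

section general

variable {I M : Type} [Fintype I] [DecidableEq I] [Fintype M]

open Classical in
/-- The choices which are in the given sets at least `s` times. -/
noncomputable def manyHits (D : I → Finset M) (J : Finset I) (s : ℕ) : Finset (I → M) :=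
  univ.filter (fun π => s ≤ (J.filter (fun i => π i ∈ D i)).card)

theorem card_manyHits (D : I → Finset M) {r : ℕ} (hD : ∀ i, r * (D i).card ≤ Fintype.card M)
    (J : Finset I) {s : ℕ} (hs : 1 ≤ s) (hJ : 8 * J.card ≤ r * s) :
    (manyHits D J s).card * 2 ^ s ≤ Fintype.card (I → M) := by
  classical
  obtain ⟨Q, hQ⟩ : ∃ Q, Q = Fintype.card (I → M) := ⟨_, rfl⟩
  rw [← hQ]
  have h1 : (manyHits D J s).card * r ^ s ≤ J.card.choose s * Q := by
    have h2 : manyHits D J s ⊆ (powersetCard s J).biUnion (fun S =>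
        univ.filter (fun π : I → M => ∀ i ∈ S, π i ∈ D i)) := by
      intro π hπ
      unfold manyHits at hπ
      obtain ⟨S, hS, hSc⟩ := exists_subset_card_eq (mem_filter.1 hπ).2
      rw [mem_biUnion]
      exact ⟨S, mem_powersetCard.2 ⟨hS.trans (filter_subset _ _), hSc⟩,
        mem_filter.2 ⟨mem_univ _, fun i hi => (mem_filter.1 (hS hi)).2⟩⟩
    have h3 : ∀ S ∈ powersetCard s J,
        (univ.filter (fun π : I → M => ∀ i ∈ S, π i ∈ D i)).card * r ^ s ≤ Q := by
      intro S hS
      have h4 : univ.filter (fun π : I → M => ∀ i ∈ S, π i ∈ D i) =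
          Fintype.piFinset (fun i => if i ∈ S then D i else univ) := by
        ext π
        rw [mem_filter, Fintype.mem_piFinset]
        constructor
        · rintro ⟨-, h⟩ i
          by_cases hi : i ∈ S
          · rw [if_pos hi]
            exact h i hi
          · rw [if_neg hi]
            exact mem_univ _
        · intro h
          refine ⟨mem_univ _, fun i hi => ?_⟩
          have := h i
          rwa [if_pos hi] at this
      have h5 : r ^ s = ∏ i : I, (if i ∈ S then r else 1) := by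
        rw [prod_ite, prod_const_one, mul_one, prod_const, ← (mem_powersetCard.1 hS).2]
        congr 2
        ext i
        simp
      rw [h4, Fintype.card_piFinset, h5, ← prod_mul_distrib, hQ, Fintype.card_fun, ← card_univ,
        ← card_univ, ← prod_const]
      refine prod_le_prod' fun i _ => ?_
      by_cases hi : i ∈ S
      · rw [if_pos hi, if_pos hi, mul_comm, card_univ]
        exact hD i
      · rw [if_neg hi, if_neg hi, mul_one]
    calc (manyHits D J s).card * r ^ s ≤ (∑ S ∈ powersetCard s J,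
        (univ.filter (fun π : I → M => ∀ i ∈ S, π i ∈ D i)).card) * r ^ s :=
          Nat.mul_le_mul_right _ ((card_le_card h2).trans card_biUnion_le)
      _ = ∑ S ∈ powersetCard s J,
        (univ.filter (fun π : I → M => ∀ i ∈ S, π i ∈ D i)).card * r ^ s := sum_mul _ _ _
      _ ≤ ∑ _S ∈ powersetCard s J, Q := sum_le_sum h3
      _ = _ := by rw [sum_const, smul_eq_mul, card_powersetCard]
  have h2 : J.card.choose s * 2 ^ s ≤ r ^ s := by
    refine Nat.le_of_mul_le_mul_right (c := s ^ s) ?_ (Nat.pow_pos hs)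
    calc J.card.choose s * 2 ^ s * s ^ s = J.card.choose s * s ^ s * 2 ^ s := by ring
      _ ≤ (4 * J.card) ^ s * 2 ^ s := Nat.mul_le_mul_right _ (choose_mul_pow_le _ _)
      _ = (8 * J.card) ^ s := by rw [← mul_pow]; congr 1; ring
      _ ≤ (r * s) ^ s := Nat.pow_le_pow_left hJ _
      _ = _ := mul_pow _ _ _
  rcases Nat.eq_zero_or_pos (J.card.choose s) with h0 | h0
  · rw [h0, zero_mul] at h1
    have hJs : J.card < s := by
      by_contra hcon
      rw [not_lt] at hcon
      have := Nat.choose_pos hcon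
      omega
    have h3 : manyHits D J s = ∅ := by
      unfold manyHits
      rw [filter_eq_empty_iff]
      intro π _ h
      have := card_filter_le J (fun i => π i ∈ D i)
      omega
    rw [h3, card_empty, zero_mul]
    exact Nat.zero_le _
  · refine Nat.le_of_mul_le_mul_left (c := J.card.choose s) ?_ h0
    calc J.card.choose s * ((manyHits D J s).card * 2 ^ s) =
        (manyHits D J s).card * (J.card.choose s * 2 ^ s) := by ring
      _ ≤ (manyHits D J s).card * r ^ s := Nat.mul_le_mul_left _ h2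
      _ ≤ _ := h1

/-- Some choice has few hits for all members of a family of sets. -/
theorem exists_choice [Nonempty M] {Q : Type} [Fintype Q] (D : Q → I → Finset M) (r : Q → ℕ)
    (hD : ∀ q i, r q * (D q i).card ≤ Fintype.card M) (J : Q → Finset I) (s : Q → ℕ) {s₀ : ℕ}
    (h0 : ∀ q, s₀ ≤ s q) (h1 : 1 ≤ s₀) (hJ : ∀ q, 8 * (J q).card ≤ r q * s q)
    (hQ : Fintype.card Q < 2 ^ s₀) :
    ∃ π : I → M, ∀ q, ∀ F : Finset I, F ⊆ J q → (∀ i ∈ F, π i ∈ D q i) → F.card < s q := by
  classical
  by_contra hcon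
  push Not at hcon
  have h2 : (univ : Finset (I → M)) ⊆ univ.biUnion (fun q => manyHits (D q) (J q) (s q)) := by
    intro π _
    obtain ⟨q, F, hF1, hF2, hF3⟩ := hcon π
    rw [mem_biUnion]
    refine ⟨q, mem_univ _, mem_filter.2 ⟨mem_univ _, hF3.trans (card_le_card fun i hi => ?_)⟩⟩
    exact mem_filter.2 ⟨hF1 hi, hF2 i hi⟩
  have h3 : Fintype.card (I → M) * 2 ^ s₀ ≤ Fintype.card Q * Fintype.card (I → M) := by
    calc Fintype.card (I → M) * 2 ^ s₀ ≤
        (∑ q : Q, (manyHits (D q) (J q) (s q)).card) * 2 ^ s₀ := by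
          refine Nat.mul_le_mul_right _ ?_
          rw [← card_univ]
          exact (card_le_card h2).trans card_biUnion_le
      _ = ∑ q : Q, (manyHits (D q) (J q) (s q)).card * 2 ^ s₀ := sum_mul _ _ _
      _ ≤ ∑ _q : Q, Fintype.card (I → M) := by
          refine sum_le_sum fun q _ => ?_
          refine le_trans (Nat.mul_le_mul_left _ (Nat.pow_le_pow_right (by norm_num) (h0 q))) ?_
          exact card_manyHits (D q) (hD q) (J q) (h1.trans (h0 q)) (hJ q)
      _ = _ := by rw [sum_const, card_univ, smul_eq_mul]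
  have h4 : 0 < Fintype.card (I → M) := Fintype.card_pos
  have h5 : Fintype.card Q * Fintype.card (I → M) < Fintype.card (I → M) * 2 ^ s₀ := by
    rw [mul_comm]
    exact Nat.mul_lt_mul_of_pos_left hQ h4
  omega

end general

/-- The labelings: the labels of the left vertices and of the right vertices. -/
abbrev Lab (d R n : ℕ) : Type := (Fin n → Fin R) × (Fin n → Fin (d * R))

theorem card_lab (d R n : ℕ) : Fintype.card (Lab d R n) = (d * R * R) ^ n := by
  rw [Fintype.card_prod, Fintype.card_fun, Fintype.card_fun, Fintype.card_fin, Fintype.card_fin,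
    Fintype.card_fin, ← mul_pow]
  congr 1
  ring

/-- The complete game `π` is spread out. -/
structure Spread {d R n : ℕ} (π : Fin n × Fin n → DMap d R) (s₀ s₁ : ℕ) : Prop where
  two : ∀ (l l' : Lab d R n) (F : Finset (Fin n × Fin n)),
    (∀ e ∈ F, l.2 e.2 ≠ l'.2 e.2 ∧ (π e).map (l.2 e.2) = l.1 e.1 ∧
      (π e).map (l'.2 e.2) = l'.1 e.1) → F.card < s₁
  one : ∀ (l : Lab d R n) (A B : Finset (Fin n)) (F : Finset (Fin n × Fin n)),
    (∀ e ∈ F, e.1 ∈ A ∧ e.2 ∈ B ∧ (π e).map (l.2 e.2) = l.1 e.1) →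
      F.card < max s₀ (8 * (A.card * B.card) / R + 1)

/-- Spread-out games exist. -/
theorem exists_spread {d R n s₀ s₁ : ℕ} (hR : 2 ≤ R) (h0 : 1 ≤ s₀)
    (hs₀ : 2 * 4 ^ n * (d * R * R) ^ (2 * n) < 2 ^ s₀) (hs : s₀ ≤ s₁)
    (hs₁ : 8 * (n * n) ≤ (R - 1) * R * s₁) :
    ∃ π : Fin n × Fin n → DMap d R, Spread π s₀ s₁ := by
  classical
  obtain ⟨L, hL⟩ : ∃ L, L = (d * R * R) ^ n := ⟨_, rfl⟩
  have hcard : Fintype.card ((Lab d R n × Lab d R n) ⊕
      (Lab d R n × Finset (Fin n) × Finset (Fin n))) < 2 ^ s₀ := by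
    rw [Fintype.card_sum, Fintype.card_prod (Lab d R n) (Lab d R n),
      Fintype.card_prod (Lab d R n) (Finset (Fin n) × Finset (Fin n)),
      Fintype.card_prod (Finset (Fin n)) (Finset (Fin n)),
      Fintype.card_finset, Fintype.card_fin, card_lab, ← hL]
    refine lt_of_le_of_lt ?_ hs₀
    have h1 : (d * R * R) ^ (2 * n) = L * L := by rw [hL, two_mul, pow_add]
    have h2 : 2 ^ n * 2 ^ n = 4 ^ n := by rw [← mul_pow]; norm_num
    rw [h1, h2]
    have h3 : 1 ≤ 4 ^ n := Nat.one_le_pow _ _ (by norm_num)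
    have h4 : L * L ≤ 4 ^ n * (L * L) := Nat.le_mul_of_pos_left _ h3
    have h5 : L ≤ L * L := by
      rcases Nat.eq_zero_or_pos L with h | h
      · rw [h]
      · exact Nat.le_mul_of_pos_left _ h
    have h6 : L * 4 ^ n ≤ (L * L) * 4 ^ n := Nat.mul_le_mul_right _ h5
    have h7 : 2 * 4 ^ n * (L * L) = 4 ^ n * (L * L) + (L * L) * 4 ^ n := by ring
    omega
  obtain ⟨π, hπ⟩ := exists_choice (I := Fin n × Fin n) (M := DMap d R)
    (Q := (Lab d R n × Lab d R n) ⊕ (Lab d R n × Finset (Fin n) × Finset (Fin n)))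
    (Sum.elim
      (fun q e => if q.1.2 e.2 ≠ q.2.2 e.2 then
        univ.filter (fun ω => ω.map (q.1.2 e.2) = q.1.1 e.1 ∧ ω.map (q.2.2 e.2) = q.2.1 e.1) else ∅)
      (fun q e => univ.filter (fun ω => ω.map (q.1.2 e.2) = q.1.1 e.1)))
    (Sum.elim (fun _ => (R - 1) * R) (fun _ => R))
    (by
      rintro (q | q) i
      · show (R - 1) * R * (if q.1.2 i.2 ≠ q.2.2 i.2 then
          univ.filter (fun ω : DMap d R => ω.map (q.1.2 i.2) = q.1.1 i.1 ∧
            ω.map (q.2.2 i.2) = q.2.1 i.1) else ∅).card ≤ _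
        split_ifs with h
        · rw [← card_one (q.1.2 i.2) (q.1.1 i.1)]
          calc _ = R * ((R - 1) * (univ.filter (fun ω : DMap d R =>
              ω.map (q.1.2 i.2) = q.1.1 i.1 ∧ ω.map (q.2.2 i.2) = q.2.1 i.1)).card) := by ring
            _ ≤ _ := Nat.mul_le_mul_left _ (card_two h _ _)
        · rw [card_empty, mul_zero]
          exact Nat.zero_le _
      · exact (card_one (q.1.2 i.2) (q.1.1 i.1)).le)
    (Sum.elim (fun _ => univ) (fun q => q.2.1 ×ˢ q.2.2))
    (Sum.elim (fun _ => s₁) (fun q => max s₀ (8 * (q.2.1.card * q.2.2.card) / R + 1)))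
    (s₀ := s₀)
    (by
      rintro (q | q)
      · exact hs
      · exact le_max_left _ _)
    h0
    (by
      rintro (q | q)
      · show 8 * (univ : Finset (Fin n × Fin n)).card ≤ (R - 1) * R * s₁
        rw [card_univ, Fintype.card_prod, Fintype.card_fin]
        exact hs₁
      · show 8 * (q.2.1 ×ˢ q.2.2).card ≤ R * max s₀ (8 * (q.2.1.card * q.2.2.card) / R + 1)
        rw [card_product]
        have h1 := Nat.lt_mul_div_succ (8 * (q.2.1.card * q.2.2.card)) (show 0 < R by omega)
        exact h1.le.trans (Nat.mul_le_mul_left _ (le_max_right _ _)))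
    hcard
  refine ⟨π, ⟨fun l l' F hF => ?_, fun l A B F hF => ?_⟩⟩
  · refine hπ (Sum.inl (l, l')) F (fun e _ => mem_univ e) fun e he => ?_
    obtain ⟨h1, h2, h3⟩ := hF e he
    show π e ∈ (if l.2 e.2 ≠ l'.2 e.2 then
      univ.filter (fun ω : DMap d R => ω.map (l.2 e.2) = l.1 e.1 ∧
        ω.map (l'.2 e.2) = l'.1 e.1) else ∅)
    rw [if_pos h1]
    exact mem_filter.2 ⟨mem_univ _, h2, h3⟩
  · refine hπ (Sum.inr (l, A, B)) F (fun e he => ?_) fun e he => ?_
    · exact mem_product.2 ⟨(hF e he).1, (hF e he).2.1⟩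
    · exact mem_filter.2 ⟨mem_univ _, (hF e he).2.2⟩

end Pool.Agent.Q202.DT
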